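import Mathlib

/-!
# Bundles of gadgets: graphs whose bits are written with two non-isomorphic graphs
-/

set_option autoImplicit false
set_option linter.unusedSectionVars false

namespace Pool.Agent.H677.GW

open SimpleGraph

/-- The relation of a bundle: hubs and one copy of a gadget for every index. The copy with the
index `i` carries the relation `G (b i)`. -/
def bRel {Hb I U : Type} (AH : Hb → Hb → Prop) (R : Hb → I → Prop) (G : Bool → U → U → Prop)
    (b : I → Bool) : Hb ⊕ (I × U) → Hb ⊕ (I × U) → Prop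
  | Sum.inl h, Sum.inl h' => AH h h'
  | Sum.inl h, Sum.inr (i, _) => R h i
  | Sum.inr (i, _), Sum.inl h => R h i
  | Sum.inr (i, u), Sum.inr (j, v) => i = j ∧ G (b i) u v

/-- The hubs: two for every vertex. -/
abbrev Hub (V : Type) : Type := Bool × V

/-- The adjacency of hubs: the hubs of the first kind form a clique, and every hub of the first kind
is joined to its partner. -/
def hubAdj {V : Type} (x y : Hub V) : Prop :=
  (x.1 = false ∧ y.1 = false ∧ x.2 ≠ y.2) ∨ (x.1 ≠ y.1 ∧ x.2 = y.2)

/-- The copy of a pair is joined to a hub of the first kind for its first entry, and to a hub of the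
second kind for its second entry. -/
def hubCopy {V : Type} (x : Hub V) (p : V × V) : Prop := (if x.1 then p.2 else p.1) = x.2

/-- The bundle of a family of bits. -/
def bundle {V U : Type} (X : Bool → SimpleGraph U) (b : V × V → Bool) :
    SimpleGraph (Hub V ⊕ ((V × V) × U)) where
  Adj := bRel hubAdj hubCopy (fun c => (X c).Adj) b
  symm := ⟨by
    rintro (x | ⟨p, u⟩) (y | ⟨q, v⟩) h
    · rcases h with h | h
      · exact Or.inl ⟨h.2.1, h.1, h.2.2.symm⟩
      · exact Or.inr ⟨h.1.symm, h.2.symm⟩
    · exact h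
    · exact h
    · obtain ⟨rfl, h⟩ := h
      exact ⟨rfl, h.symm⟩⟩
  loopless := ⟨by
    rintro (x | ⟨p, u⟩) h
    · rcases h with h | h
      · exact h.2.2 rfl
      · exact h.1 rfl
    · exact (X _).irrefl h.2⟩

section adj

variable {V U : Type} {X : Bool → SimpleGraph U} {b : V × V → Bool}

theorem adj_ll {x y : Hub V} : (bundle X b).Adj (Sum.inl x) (Sum.inl y) ↔ hubAdj x y := Iff.rfl

theorem adj_lr {x : Hub V} {p : V × V} {u : U} :
    (bundle X b).Adj (Sum.inl x) (Sum.inr (p, u)) ↔ hubCopy x p := Iff.rfl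

theorem adj_rl {x : Hub V} {p : V × V} {u : U} :
    (bundle X b).Adj (Sum.inr (p, u)) (Sum.inl x) ↔ hubCopy x p := Iff.rfl

theorem adj_rr {p q : V × V} {u v : U} :
    (bundle X b).Adj (Sum.inr (p, u)) (Sum.inr (q, v)) ↔ p = q ∧ (X (b p)).Adj u v := Iff.rfl

theorem hubCopy_false {v : V} {p : V × V} : hubCopy (false, v) p ↔ p.1 = v := Iff.rfl

theorem hubCopy_true {v : V} {p : V × V} : hubCopy (true, v) p ↔ p.2 = v := Iff.rfl

end adj

section recover

variable {V W U : Type} [Finite V] [Finite W] [Finite U] {X : Bool → SimpleGraph U} {D : ℕ}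

/-- The vertices of the copies have small degree. -/
theorem degree_copy (hD : ∀ c u, ((X c).neighborSet u).ncard ≤ D) (b : V × V → Bool)
    (p : V × V) (u : U) : ((bundle X b).neighborSet (Sum.inr (p, u))).ncard ≤ D + 2 := by
  have h1 : (bundle X b).neighborSet (Sum.inr (p, u)) ⊆
      ((fun v => (Sum.inr (p, v) : Hub V ⊕ ((V × V) × U))) '' (X (b p)).neighborSet u) ∪
        {Sum.inl (false, p.1), Sum.inl (true, p.2)} := by
    rintro (⟨s, v⟩ | ⟨q, v⟩) h
    · right
      have h2 : hubCopy (s, v) p := h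
      cases s
      · rw [hubCopy_false] at h2
        subst h2
        exact Set.mem_insert _ _
      · rw [hubCopy_true] at h2
        subst h2
        exact Set.mem_insert_of_mem _ rfl
    · left
      obtain ⟨rfl, h2⟩ := (h : p = q ∧ (X (b p)).Adj u v)
      exact ⟨v, h2, rfl⟩
  refine (Set.ncard_le_ncard h1 (Set.toFinite _)).trans ((Set.ncard_union_le _ _).trans ?_)
  refine Nat.add_le_add ((Set.ncard_image_le (Set.toFinite _)).trans (hD _ _)) ?_
  exact (Set.ncard_insert_le _ _).trans (by rw [Set.ncard_singleton])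

/-- The hubs have large degree. -/
theorem degree_hub (hU : D + 2 < Nat.card U) (b : V × V → Bool) (x : Hub V) :
    D + 2 < ((bundle X b).neighborSet (Sum.inl x)).ncard := by
  have h1 : (fun u : U => (Sum.inr ((x.2, x.2), u) : Hub V ⊕ ((V × V) × U))) '' Set.univ ⊆
      (bundle X b).neighborSet (Sum.inl x) := by
    rintro _ ⟨u, -, rfl⟩
    show hubCopy x (x.2, x.2)
    unfold hubCopy
    cases x.1 <;> rfl
  have h2 := Set.ncard_le_ncard h1 (Set.toFinite _)
  rw [Set.ncard_image_of_injective _ (fun u v h => by simpa using h), Set.ncard_univ] at h2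
  omega

theorem iso_ncard {A B : Type} {G : SimpleGraph A} {H : SimpleGraph B} (φ : G ≃g H) (x : A) :
    (H.neighborSet (φ x)).ncard = (G.neighborSet x).ncard := by
  rw [← Nat.card_coe_set_eq, ← Nat.card_coe_set_eq]
  exact (Nat.card_congr (φ.mapNeighborSet x)).symm

/-- Isomorphisms of bundles map hubs to hubs. -/
theorem isLeft_iff (hD : ∀ c u, ((X c).neighborSet u).ncard ≤ D) (hU : D + 2 < Nat.card U)
    {b : V × V → Bool} {b' : W × W → Bool} (φ : bundle X b ≃g bundle X b')
    (x : Hub V ⊕ ((V × V) × U)) : (φ x).isLeft = x.isLeft := by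
  have h1 := iso_ncard φ x
  rcases x with x | ⟨p, u⟩
  · have h2 := degree_hub (X := X) hU b x
    rcases hx : φ (Sum.inl x) with y | ⟨q, v⟩
    · rfl
    · rw [hx] at h1
      have h3 := degree_copy hD b' q v
      omega
  · have h2 := degree_copy hD b p u
    rcases hx : φ (Sum.inr (p, u)) with y | ⟨q, v⟩
    · rw [hx] at h1
      have h3 := degree_hub (X := X) hU b' y
      omega
    · rfl

/-- The hubs of the first kind have two neighbours among the hubs. -/
theorem kind_iff (hV : ∀ v : V, ∃ w, w ≠ v) (b : V × V → Bool) (x : Hub V) :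
    x.1 = false ↔ ∃ y z : Hub V, y ≠ z ∧ (bundle X b).Adj (Sum.inl x) (Sum.inl y) ∧
      (bundle X b).Adj (Sum.inl x) (Sum.inl z) := by
  obtain ⟨s, v⟩ := x
  constructor
  · intro h
    simp only at h
    subst h
    obtain ⟨w, hw⟩ := hV v
    exact ⟨(false, w), (true, v), by simp, Or.inl ⟨rfl, rfl, hw.symm⟩, Or.inr ⟨by simp, rfl⟩⟩
  · rintro ⟨⟨s', w⟩, ⟨s'', w'⟩, hne, h1, h2⟩
    cases s
    · rfl
    · exfalso
      rcases h1 with h1 | h1
      · exact absurd h1.1 (by simp)
      · rcases h2 with h2 | h2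
        · exact absurd h2.1 (by simp)
        · apply hne
          have e1 : s' = false := by
            cases s'
            · rfl
            · exact absurd rfl h1.1
          have e2 : s'' = false := by
            cases s''
            · rfl
            · exact absurd rfl h2.1
          have e3 : v = w := h1.2
          have e4 : v = w' := h2.2
          rw [e1, e2, ← e3, ← e4]

/-- **Isomorphic bundles have isomorphic bit matrices.** -/
theorem recover (hD : ∀ c u, ((X c).neighborSet u).ncard ≤ D) (hU : D + 2 < Nat.card U)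
    (hX : IsEmpty (X false ≃g X true)) (hV : ∀ v : V, ∃ w, w ≠ v) (hW : ∀ v : W, ∃ w, w ≠ v)
    {b : V × V → Bool} {b' : W × W → Bool} (φ : bundle X b ≃g bundle X b') :
    ∃ π : V ≃ W, ∀ v w, b (v, w) = b' (π v, π w) := by
  have hl := isLeft_iff hD hU φ
  have h1 : ∀ x : Hub V, ∃ y : Hub W, φ (Sum.inl x) = Sum.inl y := by
    intro x
    have := hl (Sum.inl x)
    rcases hx : φ (Sum.inl x) with y | y
    · exact ⟨y, rfl⟩
    · rw [hx] at this
      exact absurd this (by simp)
  have h2 : ∀ (q : (V × V) × U), ∃ y : (W × W) × U, φ (Sum.inr q) = Sum.inr y := by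
    intro x
    have := hl (Sum.inr x)
    rcases hx : φ (Sum.inr x) with y | y
    · rw [hx] at this
      exact absurd this (by simp)
    · exact ⟨y, rfl⟩
  choose f hf using h1
  choose g hg using h2
  have hfsurj : ∀ y : Hub W, ∃ x : Hub V, f x = y := by
    intro y
    obtain ⟨z, hz⟩ := φ.surjective (Sum.inl y)
    rcases z with x | x
    · rw [hf] at hz
      exact ⟨x, Sum.inl_injective hz⟩
    · rw [hg] at hz
      exact absurd hz (by simp)
  have hfinj : ∀ x y, f x = f y → x = y := by
    intro x y h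
    have h3 : φ (Sum.inl x) = φ (Sum.inl y) := by rw [hf, hf, h]
    exact Sum.inl_injective (φ.injective h3)
  have hkind : ∀ x, (f x).1 = x.1 := by
    intro x
    have h3 : (f x).1 = false ↔ x.1 = false := by
      rw [kind_iff (X := X) hW b' (f x), kind_iff (X := X) hV b x]
      constructor
      · rintro ⟨y, z, hne, hy, hz⟩
        obtain ⟨y, rfl⟩ := hfsurj y
        obtain ⟨z, rfl⟩ := hfsurj z
        refine ⟨y, z, fun h => hne (by rw [h]), ?_, ?_⟩
        · rwa [← φ.map_adj_iff, hf, hf]
        · rwa [← φ.map_adj_iff, hf, hf]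
      · rintro ⟨y, z, hne, hy, hz⟩
        refine ⟨f y, f z, fun h => hne (hfinj _ _ h), ?_, ?_⟩
        · rwa [← hf, ← hf, φ.map_adj_iff]
        · rwa [← hf, ← hf, φ.map_adj_iff]
    cases hx : x.1 <;> cases hy : (f x).1
    · rfl
    · rw [h3.2 hx] at hy
      exact absurd hy (by simp)
    · rw [h3.1 hy] at hx
      exact absurd hx (by simp)
    · rfl
  let π : V → W := fun v => (f (false, v)).2
  have hπ0 : ∀ v, f (false, v) = (false, π v) := fun v => Prod.ext (hkind _) rfl
  have hπ1 : ∀ v, f (true, v) = (true, π v) := by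
    intro v
    have h3 : (bundle X b).Adj (Sum.inl (false, v)) (Sum.inl (true, v)) :=
      Or.inr ⟨by simp, rfl⟩
    rw [← φ.map_adj_iff, hf, hf, hπ0] at h3
    rcases h3 with h3 | h3
    · have := hkind (true, v)
      exact absurd (this.symm.trans h3.2.1) (by simp)
    · exact Prod.ext (hkind _) h3.2.symm
  have hπinj : Function.Injective π := by
    intro v w h
    have h3 := hfinj (false, v) (false, w) (by rw [hπ0, hπ0, h])
    exact (Prod.mk.inj h3).2
  have hπsurj : Function.Surjective π := by
    intro w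
    obtain ⟨x, hx⟩ := hfsurj (false, w)
    have h3 := hkind x
    rw [hx] at h3
    obtain ⟨s, v⟩ := x
    have h4 : s = false := h3.symm
    subst h4
    exact ⟨v, by rw [hπ0] at hx; exact (Prod.mk.inj hx).2⟩
  have hg1 : ∀ (p : V × V) (u : U), (g (p, u)).1 = (π p.1, π p.2) := by
    intro p u
    have h3 : (bundle X b).Adj (Sum.inl (false, p.1)) (Sum.inr (p, u)) := rfl
    have h4 : (bundle X b).Adj (Sum.inl (true, p.2)) (Sum.inr (p, u)) := rfl
    rw [← φ.map_adj_iff, hf, hg, hπ0] at h3
    rw [← φ.map_adj_iff, hf, hg, hπ1] at h4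
    exact Prod.ext h3 h4
  refine ⟨Equiv.ofBijective π ⟨hπinj, hπsurj⟩, fun v w => ?_⟩
  show b (v, w) = b' (π v, π w)
  let k : U → U := fun u => (g ((v, w), u)).2
  have hk : ∀ u, φ (Sum.inr ((v, w), u)) = Sum.inr ((π v, π w), k u) := by
    intro u
    rw [hg]
    exact congrArg Sum.inr (Prod.ext (hg1 (v, w) u) rfl)
  have hkinj : Function.Injective k := by
    intro u u' h
    have h3 : φ (Sum.inr ((v, w), u)) = φ (Sum.inr ((v, w), u')) := by rw [hk, hk, h]
    simpa using φ.injective h3
  have hkadj : ∀ u u', (X (b' (π v, π w))).Adj (k u) (k u') ↔ (X (b (v, w))).Adj u u' := by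
    intro u u'
    have h3 : (bundle X b').Adj (φ (Sum.inr ((v, w), u))) (φ (Sum.inr ((v, w), u'))) ↔
        (bundle X b).Adj (Sum.inr ((v, w), u)) (Sum.inr ((v, w), u')) := φ.map_adj_iff
    rw [hk, hk, adj_rr, adj_rr] at h3
    simpa using h3
  let ψ : X (b (v, w)) ≃g X (b' (π v, π w)) :=
    ⟨Equiv.ofBijective k (Finite.injective_iff_bijective.1 hkinj), fun {u u'} => hkadj u u'⟩
  cases h3 : b (v, w) <;> cases h4 : b' (π v, π w)
  · rfl
  · rw [h3, h4] at ψ
    exact (hX.false ψ).elim
  · rw [h3, h4] at ψ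
    exact (hX.false ψ.symm).elim
  · rfl

/-- A bijection which preserves the bits yields an isomorphism of bundles. -/
def lift (X : Bool → SimpleGraph U) {b : V × V → Bool} {b' : W × W → Bool} (π : V ≃ W)
    (h : ∀ v w, b (v, w) = b' (π v, π w)) : bundle X b ≃g bundle X b' where
  toEquiv := (Equiv.prodCongr (Equiv.refl Bool) π).sumCongr
    (Equiv.prodCongr (Equiv.prodCongr π π) (Equiv.refl U))
  map_rel_iff' := by
    rintro (⟨s, v⟩ | ⟨p, u⟩) (⟨t, w⟩ | ⟨q, u'⟩)
    · show hubAdj (s, π v) (t, π w) ↔ hubAdj (s, v) (t, w)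
      unfold hubAdj
      simp only [ne_eq, EmbeddingLike.apply_eq_iff_eq]
    · show hubCopy (s, π v) (π q.1, π q.2) ↔ hubCopy (s, v) q
      unfold hubCopy
      cases s
      · exact π.injective.eq_iff
      · exact π.injective.eq_iff
    · show hubCopy (t, π w) (π p.1, π p.2) ↔ hubCopy (t, w) p
      unfold hubCopy
      cases t
      · exact π.injective.eq_iff
      · exact π.injective.eq_iff
    · show ((π p.1, π p.2) = (π q.1, π q.2) ∧ (X (b' (π p.1, π p.2))).Adj u u') ↔
        p = q ∧ (X (b p)).Adj u u'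
      rw [← h, Prod.mk.injEq, π.injective.eq_iff, π.injective.eq_iff, ← Prod.ext_iff]

end recover

end Pool.Agent.H677.GW
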