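import Pool.Graph.R_seed8.Y598.CG.Sum
import Pool.Agent.H677.GW.Bundle

/-!
# Bundles of families with local isomorphisms
-/

set_option autoImplicit false
set_option linter.unusedSectionVars false

namespace Pool.Agent.H677.GW

open Pool.Agent.Y598.IM Finset

variable {X L U Hb I : Type} [AddCommGroup X] [SemilatticeSup L] [OrderBot L] [Fintype I]
  [DecidableEq I]

/-- The family of all bundles of the members of a family. -/
def bundleFam (F : Fam X L U Bool) (AH : Hb → Hb → Prop) (R : Hb → I → Prop) :
    Fam (I → X) (I → L) (Hb ⊕ (I × U)) (I → Bool) where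
  N W :=
    { carrier := {M | ∀ i, M i ∈ F.N (W i)}
      add_mem' := fun h h' i => (F.N (W i)).add_mem (h i) (h' i)
      zero_mem' := fun i => (F.N (W i)).zero_mem
      neg_mem' := fun h i => (F.N (W i)).neg_mem (h i) }
  D W :=
    { carrier := {M | ∀ i, M i ∈ F.D (W i)}
      add_mem' := fun h h' i => (F.D (W i)).add_mem (h i) (h' i)
      zero_mem' := fun i => (F.D (W i)).zero_mem
      neg_mem' := fun h i => (F.D (W i)).neg_mem (h i) }
  Sol b b' W := {M | ∀ i, M i ∈ F.Sol (b i) (b' i) (W i)}
  size W := ∑ i, F.size (W i)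
  K := F.K
  N_anti W W' h M hM i := F.N_anti _ _ (h i) (hM i)
  N_sup W W' M hM i := F.N_sup _ _ ⟨hM.1 i, hM.2 i⟩
  N_bot := by
    rw [eq_top_iff]
    intro M _ i
    show M i ∈ F.N ⊥
    rw [F.N_bot]
    exact AddSubgroup.mem_top _
  Sol_anti b b' W W' h M hM i := F.Sol_anti _ _ _ _ (h i) (hM i)
  sol_D b W M := forall_congr' fun i => F.sol_D (b i) (W i) (M i)
  neg_mem b b' W M hM i := F.neg_mem _ _ _ _ (hM i)
  add_mem b b' b'' W M M' hM hM' i := F.add_mem _ _ _ _ _ _ (hM i) (hM' i)
  size_bot := Finset.sum_eq_zero fun i _ => F.size_bot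
  size_mono W W' h := Finset.sum_le_sum fun i _ => F.size_mono _ _ (h i)
  size_sup W W' := by
    rw [← Finset.sum_add_distrib]
    exact Finset.sum_le_sum fun i _ => F.size_sup _ _
  bot_sol b b' := by
    choose M hM using fun i => F.bot_sol (b i) (b' i)
    exact ⟨M, hM⟩
  extend b b' W W' hWW hW M hM := by
    have h1 : ∀ i, F.size (W' i) ≤ F.K := fun i =>
      (Finset.single_le_sum (f := fun i => F.size (W' i)) (fun i _ => Nat.zero_le _)
        (Finset.mem_univ i)).trans hW
    choose M' hM' using fun i => F.extend (b i) (b' i) (W i) (W' i) (hWW i) (h1 i) (M i) (hM i)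
    exact ⟨M', fun i => (hM' i).1, fun i => (hM' i).2⟩
  act M :=
    { toFun := Sum.map id fun p => (p.1, F.act (M p.1) p.2)
      invFun := Sum.map id fun p => (p.1, F.act (-(M p.1)) p.2)
      left_inv := by
        rintro (h | ⟨i, u⟩)
        · rfl
        · exact congrArg Sum.inr (Prod.ext rfl (F.act_neg_act (M i) u))
      right_inv := by
        rintro (h | ⟨i, u⟩)
        · rfl
        · exact congrArg Sum.inr (Prod.ext rfl (F.act_act_neg (M i) u)) }
  act_zero := by
    rintro (h | ⟨i, u⟩)
    · rfl
    · exact congrArg Sum.inr (Prod.ext rfl (F.act_zero u))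
  act_add M M' := by
    rintro (h | ⟨i, u⟩)
    · rfl
    · exact congrArg Sum.inr (Prod.ext rfl (F.act_add (M i) (M' i) u))
  lv := Sum.elim (fun _ => ⊥) fun p => Function.update ⊥ p.1 (F.lv p.2)
  lv_act M := by
    rintro (h | ⟨i, u⟩)
    · rfl
    · exact congrArg (Function.update ⊥ i) (F.lv_act (M i) u)
  fix n := by
    rintro (h | ⟨i, u⟩) hn
    · rfl
    · have h1 : n i ∈ F.N (Function.update (⊥ : I → L) i (F.lv u) i) := hn i
      rw [Function.update_self] at h1
      exact congrArg Sum.inr (Prod.ext rfl (F.fix (n i) u h1))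
  faithful n := by
    rintro (h | ⟨i, u⟩) hn j
    · show n j ∈ F.N ⊥
      rw [F.N_bot]
      exact AddSubgroup.mem_top _
    · show n j ∈ F.N (Function.update (⊥ : I → L) i (F.lv u) j)
      by_cases hij : j = i
      · subst hij
        rw [Function.update_self]
        exact F.faithful (n j) u (Prod.mk.inj (Sum.inr_injective hn)).2
      · rw [Function.update_of_ne hij]
        show n j ∈ F.N ⊥
        rw [F.N_bot]
        exact AddSubgroup.mem_top _
  c := F.c
  size_lv := by
    rintro (h | ⟨i, u⟩)
    · refine le_of_eq_of_le ?_ (Nat.zero_le _)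
      exact Finset.sum_eq_zero fun i _ => F.size_bot
    · refine le_trans (le_of_eq ?_) (F.size_lv u)
      rw [Finset.sum_eq_single i]
      · show F.size (Function.update (⊥ : I → L) i (F.lv u) i) = _
        rw [Function.update_self]
      · intro j _ hj
        show F.size (Function.update (⊥ : I → L) i (F.lv u) j) = _
        rw [Function.update_of_ne hj]
        exact F.size_bot
      · intro h
        exact absurd (Finset.mem_univ _) h
  G b := bRel AH R F.G b
  G_inj b b' h := by
    funext i
    refine F.G_inj ?_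
    funext u v
    have h1 := congrFun (congrFun h (Sum.inr (i, u))) (Sum.inr (i, v))
    have h2 : (i = i ∧ F.G (b i) u v) = (i = i ∧ F.G (b' i) u v) := h1
    simpa using h2
  adj b b' := by
    rintro (h | ⟨i, u⟩) (h' | ⟨j, v⟩) M hM
    · exact Iff.rfl
    · exact Iff.rfl
    · exact Iff.rfl
    · show (i = j ∧ F.G (b i) u v) ↔ (i = j ∧ F.G (b' i) (F.act (M i) u) (F.act (M j) v))
      refine and_congr_right fun hij => ?_
      subst hij
      refine F.adj _ _ _ _ _ ?_
      have h1 : M i ∈ F.Sol (b i) (b' i) ((Function.update (⊥ : I → L) i (F.lv u) ⊔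
        Function.update (⊥ : I → L) i (F.lv v)) i) := hM i
      rw [Pi.sup_apply, Function.update_self, Function.update_self] at h1
      exact h1

end Pool.Agent.H677.GW
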