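import Pool.Agent.H677.GW.Bundle
import Pool.Graph.R_pool_sql_team_seeded_620a6dc7.H129.UB.Main

/-!
# Reductions of graph isomorphism to bundles
-/

set_option autoImplicit false
set_option linter.unusedSectionVars false

namespace Pool.Agent.NPC.GW677

open Pool.Agent.H677.GW Pool.Agent.NPC.UB129 Pool.Agent.NPC.R671

/-- The number of vertices of the bundle. -/
def size (m : ℕ → ℕ) (n : ℕ) : ℕ := 2 * n + n * n * m n

/-- The vertices of the bundle are numbered. -/
def dec (m : ℕ → ℕ) (n : ℕ) : Fin (size m n) ≃ Hub (Fin n) ⊕ ((Fin n × Fin n) × Fin (m n)) :=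
  finSumFinEquiv.symm.trans (Equiv.sumCongr
    (finProdFinEquiv.symm.trans (Equiv.prodCongr finTwoEquiv (Equiv.refl _)))
    (finProdFinEquiv.symm.trans (Equiv.prodCongr finProdFinEquiv.symm (Equiv.refl _))))

/-- The adjacency bits of a graph. -/
noncomputable def bitsOf {n : ℕ} (G : SimpleGraph (Fin n)) (p : Fin n × Fin n) : Bool :=
  open Classical in decide (G.Adj p.1 p.2)

/-- The bundle that encodes a graph, on numbered vertices. -/
noncomputable def TT (m : ℕ → ℕ) (X : ∀ n, Bool → SimpleGraph (Fin (m n))) (n : ℕ)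
    (G : SimpleGraph (Fin n)) : SimpleGraph (Fin (size m n)) :=
  (bundle (X n) (bitsOf G)).comap (dec m n)

/-- The numbering is an isomorphism. -/
noncomputable def TTiso (m : ℕ → ℕ) (X : ∀ n, Bool → SimpleGraph (Fin (m n))) (n : ℕ)
    (G : SimpleGraph (Fin n)) : TT m X n G ≃g bundle (X n) (bitsOf G) :=
  SimpleGraph.Iso.comap (dec m n) _

theorem size_mono {m : ℕ → ℕ} (hm : Monotone m) {a b : ℕ} (h : a < b) : size m a < size m b := by
  unfold size
  have h1 : a * a * m a ≤ b * b * m b :=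
    Nat.mul_le_mul (Nat.mul_le_mul h.le h.le) (hm h.le)
  omega

theorem size_inj {m : ℕ → ℕ} (hm : Monotone m) {a b : ℕ} (h : size m a = size m b) : a = b := by
  rcases lt_trichotomy a b with h1 | h1 | h1
  · exact absurd h (size_mono hm h1).ne
  · exact h1
  · exact absurd h (size_mono hm h1).ne'

/-- The bundles are isomorphic if and only if the graphs are. -/
theorem TT_iso_iff {m : ℕ → ℕ} (hm : Monotone m) {X : ∀ n, Bool → SimpleGraph (Fin (m n))}
    {D : ℕ} (hD : ∀ n c u, ((X n c).neighborSet u).ncard ≤ D) (hDm : ∀ n, D + 2 < m n)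
    (hX : ∀ n, IsEmpty (X n false ≃g X n true)) {n n' : ℕ} (G : SimpleGraph (Fin n))
    (H : SimpleGraph (Fin n')) : Nonempty (TT m X n G ≃g TT m X n' H) ↔ Nonempty (G ≃g H) := by
  classical
  constructor
  · rintro ⟨φ⟩
    have h1 : size m n = size m n' := by
      have := Fintype.card_congr φ.toEquiv
      simpa using this
    have h2 := size_inj hm h1
    subst h2
    rcases Nat.lt_or_ge n 2 with hn | hn
    · refine ⟨⟨Equiv.refl _, ?_⟩⟩
      intro a b
      have hab : a = b := Fin.ext (by omega)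
      subst hab
      simp
    · have hne : ∀ v : Fin n, ∃ w, w ≠ v := by
        intro v
        by_cases hv : v = ⟨0, by omega⟩
        · exact ⟨⟨1, by omega⟩, by rw [hv]; simp⟩
        · exact ⟨⟨0, by omega⟩, fun h => hv h.symm⟩
      obtain ⟨π, hπ⟩ := recover (hD n) (by rw [Nat.card_fin]; exact hDm n) (hX n) hne hne
        (((TTiso m X n G).symm.trans φ).trans (TTiso m X n H))
      refine ⟨⟨π, fun {a b} => ?_⟩⟩
      have h3 := hπ a b
      unfold bitsOf at h3
      exact (decide_eq_decide.1 h3).symm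
  · rintro ⟨φ⟩
    have h1 : n = n' := by
      have := Fintype.card_congr φ.toEquiv
      simpa using this
    subst h1
    refine ⟨((TTiso m X n G).trans (lift (X n) φ.toEquiv fun v w => ?_)).trans
      (TTiso m X n H).symm⟩
    unfold bitsOf
    exact decide_eq_decide.2 φ.map_adj_iff.symm

/-! ### Adjacency matrices -/

/-- The test for adjacency of hubs. -/
def hubB (s v t w : ℕ) : Bool :=
  (decide (s = 0) && (decide (t = 0) && !decide (v = w))) || (!decide (s = t) && decide (v = w))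

/-- The test for the adjacency of a hub and a copy. -/
def copyB (s v p q : ℕ) : Bool := bif decide (s = 0) then decide (p = v) else decide (q = v)

/-- The test for adjacency in the bundle. -/
def adjB (adjX : ℕ → Bool → ℕ → ℕ → Bool) (n m : ℕ) (M : Mat) (s t : ℕ) : Bool :=
  bif decide (s < 2 * n) then
    (bif decide (t < 2 * n) then hubB (s / n) (s % n) (t / n) (t % n)
      else copyB (s / n) (s % n) ((t - 2 * n) / m / n) ((t - 2 * n) / m % n))
  else
    (bif decide (t < 2 * n) then copyB (t / n) (t % n) ((s - 2 * n) / m / n) ((s - 2 * n) / m % n)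
      else decide ((s - 2 * n) / m = (t - 2 * n) / m) &&
        adjX n (ent M ((s - 2 * n) / m / n) ((s - 2 * n) / m % n)) ((s - 2 * n) % m)
          ((t - 2 * n) % m))

/-- The adjacency matrix of the bundle. -/
def red (m : ℕ → ℕ) (adjX : ℕ → Bool → ℕ → ℕ → Bool) (M : Mat) : Mat :=
  (List.range (size m M.length)).map fun s => (List.range (size m M.length)).map fun t =>
    adjB adjX M.length (m M.length) M s t

theorem finTwo_iff (s : Fin 2) : finTwoEquiv s = false ↔ (s : ℕ) = 0 := by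
  revert s
  decide

theorem symm_lt {a b : ℕ} (s : Fin (a + b)) (h : (s : ℕ) < a) :
    finSumFinEquiv.symm s = Sum.inl ⟨s, h⟩ := by
  rw [Equiv.symm_apply_eq]
  exact Fin.ext rfl

theorem symm_ge {a b : ℕ} (s : Fin (a + b)) (h : ¬ (s : ℕ) < a) (h0 : (s : ℕ) - a < b) :
    finSumFinEquiv.symm s = Sum.inr ⟨s - a, h0⟩ := by
  rw [Equiv.symm_apply_eq]
  refine Fin.ext ?_
  rw [finSumFinEquiv_apply_right]
  simp only [Fin.natAdd_mk]
  omega

theorem dec_lt {m : ℕ → ℕ} {n : ℕ} (s : Fin (size m n)) (h : (s : ℕ) < 2 * n) :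
    ∃ x : Hub (Fin n), dec m n s = Sum.inl x ∧ (x.1 = false ↔ (s : ℕ) / n = 0) ∧
      (x.2 : ℕ) = s % n ∧ (s : ℕ) / n < 2 := by
  have hn : 0 < n := by omega
  refine ⟨(finTwoEquiv (finProdFinEquiv.symm (⟨s, h⟩ : Fin (2 * n))).1,
    (finProdFinEquiv.symm (⟨s, h⟩ : Fin (2 * n))).2), ?_, ?_, rfl, ?_⟩
  · exact congrArg (Sum.map _ _) (symm_lt (b := n * n * m n) s h)
  · exact finTwo_iff _
  · rw [Nat.div_lt_iff_lt_mul hn]
    exact h

theorem dec_ge {m : ℕ → ℕ} {n : ℕ} (s : Fin (size m n)) (h : ¬ (s : ℕ) < 2 * n) :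
    ∃ x : (Fin n × Fin n) × Fin (m n), dec m n s = Sum.inr x ∧
      (x.1.1 : ℕ) = (s - 2 * n) / m n / n ∧ (x.1.2 : ℕ) = (s - 2 * n) / m n % n ∧
      (x.2 : ℕ) = (s - 2 * n) % m n := by
  have h0 : (s : ℕ) - 2 * n < n * n * m n := by
    have := s.isLt
    unfold size at this
    omega
  refine ⟨((finProdFinEquiv.symm (finProdFinEquiv.symm
    (⟨s - 2 * n, h0⟩ : Fin (n * n * m n))).1), (finProdFinEquiv.symm
    (⟨s - 2 * n, h0⟩ : Fin (n * n * m n))).2), ?_, rfl, rfl, rfl⟩
  exact congrArg (Sum.map _ _) (symm_ge (b := n * n * m n) s h h0)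

theorem bool_ne_false {s : Bool} : s = true ↔ ¬ s = false := by cases s <;> simp

theorem hubB_iff {n : ℕ} (x y : Hub (Fin n)) {s t : ℕ} (hx : x.1 = false ↔ s = 0)
    (hy : y.1 = false ↔ t = 0) (hs : s < 2) (ht : t < 2) :
    hubB s x.2 t y.2 = true ↔ hubAdj x y := by
  obtain ⟨a, v⟩ := x
  obtain ⟨c, w⟩ := y
  unfold hubB hubAdj
  simp only at hx hy
  have h1 : a ≠ c ↔ s ≠ t := by
    cases a <;> cases c <;> simp at hx hy <;> constructor <;> intro h <;> simp at h ⊢ <;> omega
  simp only [Bool.or_eq_true, Bool.and_eq_true, decide_eq_true_eq, Bool.not_eq_true',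
    decide_eq_false_iff_not, hx, hy, h1, ne_eq, Fin.ext_iff]

theorem copyB_iff {n : ℕ} (x : Hub (Fin n)) (p : Fin n × Fin n) {s : ℕ}
    (hx : x.1 = false ↔ s = 0) : copyB s x.2 p.1 p.2 = true ↔ hubCopy x p := by
  obtain ⟨a, v⟩ := x
  unfold copyB hubCopy
  simp only at hx
  cases a
  · have hs := hx.1 rfl
    simp [hs, Fin.ext_iff]
  · have hs : s ≠ 0 := fun h => absurd (hx.2 h) (by simp)
    simp [hs, Fin.ext_iff]

variable {m : ℕ → ℕ} {X : ∀ n, Bool → SimpleGraph (Fin (m n))}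
  {adjX : ℕ → Bool → ℕ → ℕ → Bool}

theorem ent_bits {n : ℕ} (G : SimpleGraph (Fin n)) (p : Fin n × Fin n) :
    ent (adjMatrix G) p.1 p.2 = bitsOf G p := by
  classical
  unfold bitsOf
  rw [Bool.eq_iff_iff, ent_adjMatrix, decide_eq_true_eq]

theorem adjB_iff (hadj : ∀ n c (s t : Fin (m n)), adjX n c s t = true ↔ (X n c).Adj s t)
    {n : ℕ} (G : SimpleGraph (Fin n)) (s t : Fin (size m n)) :
    adjB adjX n (m n) (adjMatrix G) s t = true ↔ (TT m X n G).Adj s t := by
  show _ ↔ (bundle (X n) (bitsOf G)).Adj (dec m n s) (dec m n t)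
  unfold adjB
  by_cases hs : (s : ℕ) < 2 * n
  · obtain ⟨x, hx, hx1, hx2, hx3⟩ := dec_lt s hs
    by_cases ht : (t : ℕ) < 2 * n
    · obtain ⟨y, hy, hy1, hy2, hy3⟩ := dec_lt t ht
      rw [hx, hy, adj_ll, decide_eq_true hs, decide_eq_true ht, cond_true, cond_true, ← hx2,
        ← hy2]
      exact hubB_iff x y hx1 hy1 hx3 hy3
    · obtain ⟨y, hy, hy1, hy2, hy3⟩ := dec_ge t ht
      rw [hx, hy, decide_eq_true hs, decide_eq_false ht, cond_true, cond_false, ← hx2,
        ← hy1, ← hy2]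
      exact copyB_iff x y.1 hx1
  · obtain ⟨x, hx, hx1, hx2, hx3⟩ := dec_ge s hs
    by_cases ht : (t : ℕ) < 2 * n
    · obtain ⟨y, hy, hy1, hy2, hy3⟩ := dec_lt t ht
      rw [hx, hy, decide_eq_false hs, decide_eq_true ht, cond_true, cond_false, ← hy2,
        ← hx1, ← hx2]
      exact copyB_iff y x.1 hy1
    · obtain ⟨y, hy, hy1, hy2, hy3⟩ := dec_ge t ht
      obtain ⟨p, u⟩ := x
      obtain ⟨q, v⟩ := y
      rw [hx, hy, adj_rr, decide_eq_false hs, decide_eq_false ht, cond_false, cond_false]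
      simp only at hx1 hx2 hx3 hy1 hy2 hy3
      have key : ((s : ℕ) - 2 * n) / m n = (t - 2 * n) / m n ↔ p = q := by
        rw [Prod.ext_iff, Fin.ext_iff, Fin.ext_iff, hx1, hx2, hy1, hy2]
        constructor
        · intro h
          rw [h]
          exact ⟨rfl, rfl⟩
        · rintro ⟨h1, h2⟩
          rw [← Nat.div_add_mod (((s : ℕ) - 2 * n) / m n) n, h1, h2, Nat.div_add_mod]
      rw [← hx1, ← hx2, ← hx3, ← hy3, Bool.and_eq_true, decide_eq_true_eq, key, ent_bits,
        hadj]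

theorem red_adjMatrix (hadj : ∀ n c (s t : Fin (m n)), adjX n c s t = true ↔ (X n c).Adj s t)
    {n : ℕ} (G : SimpleGraph (Fin n)) : red m adjX (adjMatrix G) = adjMatrix (TT m X n G) := by
  classical
  unfold red
  rw [length_adjMatrix]
  conv_rhs => unfold adjMatrix
  refine List.ext_getElem (by simp) fun i h1 h2 => ?_
  rw [List.getElem_map, List.getElem_ofFn, List.getElem_range]
  refine List.ext_getElem (by simp) fun j h3 h4 => ?_
  rw [List.getElem_map, List.getElem_ofFn, List.getElem_range]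
  have hi : i < size m n := by simpa using h1
  have hj : j < size m n := by simpa using h3
  refine Bool.eq_iff_iff.2 (Iff.trans ?_ (@decide_eq_true_iff _ (_)).symm)
  exact adjB_iff hadj G ⟨i, hi⟩ ⟨j, hj⟩

/-! ### Polynomial time -/

theorem upoly_size (hm : UPoly fun M : Mat => m M.length) :
    UPoly fun M : Mat => size m M.length := by
  unfold size
  exact ((UPoly.const 2).mul upoly_len).add ((upoly_len.mul upoly_len).mul hm)

theorem poly_hubB {α : Type} [TEnc α] {s v t w : α → ℕ} (hs : Poly s) (hv : Poly v)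
    (ht : Poly t) (hw : Poly w) : Poly (fun a => hubB (s a) (v a) (t a) (w a)) := by
  unfold hubB
  fun_prop

theorem poly_copyB {α : Type} [TEnc α] {s v t w : α → ℕ} (hs : Poly s) (hv : Poly v)
    (ht : Poly t) (hw : Poly w) : Poly (fun a => copyB (s a) (v a) (t a) (w a)) := by
  unfold copyB
  fun_prop

theorem poly_adjB (hp : Poly fun p : Mat × Bool × ℕ × ℕ => adjX p.1.length p.2.1 p.2.2.1 p.2.2.2) :
    Poly (fun p : (ℕ × Mat) × ℕ × ℕ => adjB adjX p.1.2.length p.1.1 p.1.2 p.2.1 p.2.2) := by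
  unfold adjB
  have h1 : Poly (fun p : (ℕ × Mat) × ℕ × ℕ => adjX p.1.2.length
      (ent p.1.2 ((p.2.1 - 2 * p.1.2.length) / p.1.1 / p.1.2.length)
        ((p.2.1 - 2 * p.1.2.length) / p.1.1 % p.1.2.length))
      ((p.2.1 - 2 * p.1.2.length) % p.1.1) ((p.2.2 - 2 * p.1.2.length) % p.1.1)) := by
    have h2 : Poly (fun p : (ℕ × Mat) × ℕ × ℕ =>
        (ent p.1.2 ((p.2.1 - 2 * p.1.2.length) / p.1.1 / p.1.2.length)
          ((p.2.1 - 2 * p.1.2.length) / p.1.1 % p.1.2.length))) :=
      poly_ent.comp (f := fun p : (ℕ × Mat) × ℕ × ℕ =>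
        (p.1.2, ((p.2.1 - 2 * p.1.2.length) / p.1.1 / p.1.2.length),
          ((p.2.1 - 2 * p.1.2.length) / p.1.1 % p.1.2.length))) (by fun_prop)
    have h3 : Poly (fun p : (ℕ × Mat) × ℕ × ℕ =>
        ((p.2.1 - 2 * p.1.2.length) % p.1.1, (p.2.2 - 2 * p.1.2.length) % p.1.1)) := by fun_prop
    exact hp.comp (f := fun p : (ℕ × Mat) × ℕ × ℕ => (p.1.2,
      (ent p.1.2 ((p.2.1 - 2 * p.1.2.length) / p.1.1 / p.1.2.length)
        ((p.2.1 - 2 * p.1.2.length) / p.1.1 % p.1.2.length)),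
      (p.2.1 - 2 * p.1.2.length) % p.1.1, (p.2.2 - 2 * p.1.2.length) % p.1.1))
      (Poly.pair (Poly.snd (Poly.fst Poly.id)) (Poly.pair h2 h3))
  have a1 : Poly (fun p : (ℕ × Mat) × ℕ × ℕ => decide (p.2.1 < 2 * p.1.2.length)) := by fun_prop
  have a2 : Poly (fun p : (ℕ × Mat) × ℕ × ℕ => decide (p.2.2 < 2 * p.1.2.length)) := by fun_prop
  have a3 : Poly (fun p : (ℕ × Mat) × ℕ × ℕ => decide ((p.2.1 - 2 * p.1.2.length) / p.1.1 =
      (p.2.2 - 2 * p.1.2.length) / p.1.1)) := by fun_prop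
  refine Poly.cond a1 (Poly.cond a2 (poly_hubB ?_ ?_ ?_ ?_) (poly_copyB ?_ ?_ ?_ ?_))
    (Poly.cond a2 (poly_copyB ?_ ?_ ?_ ?_) (a3.and h1)) <;> fun_prop

theorem poly_red (hm : UPoly fun M : Mat => m M.length)
    (hp : Poly fun p : Mat × Bool × ℕ × ℕ => adjX p.1.length p.2.1 p.2.2.1 p.2.2.2) :
    Poly (red m adjX) := by
  unfold red
  have h1 : Poly (fun M : Mat => List.range (size m M.length)) := (upoly_size hm).range
  have h2 : Poly (fun M : Mat => m M.length) := hm.toPoly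
  refine Poly.map (F := fun (M : Mat) s => (List.range (size m M.length)).map fun t =>
    adjB adjX M.length (m M.length) M s t) h1 ?_
  refine Poly.map (l := fun p : Mat × ℕ => List.range (size m p.1.length))
    (F := fun (p : Mat × ℕ) t => adjB adjX p.1.length (m p.1.length) p.1 p.2 t)
    (h1.comp (Poly.fst Poly.id)) ?_
  exact (poly_adjB hp).comp (f := fun p : (Mat × ℕ) × ℕ =>
    ((m p.1.1.length, p.1.1), p.1.2, p.2))
    (Poly.pair (Poly.pair (h2.comp (Poly.fst (Poly.fst Poly.id))) (Poly.fst (Poly.fst Poly.id)))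
      (Poly.pair (Poly.snd (Poly.fst Poly.id)) (Poly.snd Poly.id)))

/-! ### The reduction -/

/-- The pair of bundles of a string: invalid strings are mapped to a fixed pair. -/
def gmap (m : ℕ → ℕ) (adjX : ℕ → Bool → ℕ → ℕ → Bool) (x : List Bool) : Mat × Mat :=
  (unbits (Mat × Mat) x).elim (red m adjX [], red m adjX [[false]]) fun p =>
    bif valid p.1 && valid p.2 then (red m adjX p.1, red m adjX p.2)
      else (red m adjX [], red m adjX [[false]])

theorem poly_gmap (hm : UPoly fun M : Mat => m M.length)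
    (hp : Poly fun p : Mat × Bool × ℕ × ℕ => adjX p.1.length p.2.1 p.2.2.1 p.2.2.2) :
    Poly (gmap m adjX) := by
  unfold gmap
  refine Poly.optElim (h := fun _ (p : Mat × Mat) => bif valid p.1 && valid p.2 then
    (red m adjX p.1, red m adjX p.2) else (red m adjX [], red m adjX [[false]])) poly_unbits
    (Poly.const _) ?_
  refine Poly.cond ?_ ?_ (Poly.const _)
  · exact (poly_valid.comp (Poly.fst (Poly.snd Poly.id))).and
      (poly_valid.comp (Poly.snd (Poly.snd Poly.id)))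
  · exact Poly.pair ((poly_red hm hp).comp (Poly.fst (Poly.snd Poly.id)))
      ((poly_red hm hp).comp (Poly.snd (Poly.snd Poly.id)))

theorem gmap_spec (hadj : ∀ n c (s t : Fin (m n)), adjX n c s t = true ↔ (X n c).Adj s t)
    (hiff : ∀ (n n' : ℕ) (G : SimpleGraph (Fin n)) (H : SimpleGraph (Fin n')),
      Nonempty (TT m X n G ≃g TT m X n' H) ↔ Nonempty (G ≃g H)) (x : List Bool) :
    ∃ (n n' : ℕ) (G : SimpleGraph (Fin n)) (H : SimpleGraph (Fin n')),
      gmap m adjX x = (adjMatrix (TT m X n G), adjMatrix (TT m X n' H)) ∧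
      (x ∈ GI ↔ Nonempty (TT m X n G ≃g TT m X n' H)) := by
  have e0 : adjMatrix (⊥ : SimpleGraph (Fin 0)) = [] := by simp [adjMatrix]
  have e1 : adjMatrix (⊥ : SimpleGraph (Fin 1)) = [[false]] := by simp [adjMatrix]
  have hbad : x ∉ GI → gmap m adjX x = (red m adjX [], red m adjX [[false]]) →
      ∃ (n n' : ℕ) (G : SimpleGraph (Fin n)) (H : SimpleGraph (Fin n')),
      gmap m adjX x = (adjMatrix (TT m X n G), adjMatrix (TT m X n' H)) ∧
      (x ∈ GI ↔ Nonempty (TT m X n G ≃g TT m X n' H)) := by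
    intro hx hg
    refine ⟨0, 1, ⊥, ⊥, ?_, ?_⟩
    · have h0 := red_adjMatrix hadj (⊥ : SimpleGraph (Fin 0))
      have h1 := red_adjMatrix hadj (⊥ : SimpleGraph (Fin 1))
      rw [e0] at h0
      rw [e1] at h1
      rw [hg, h0, h1]
    · rw [hiff]
      refine iff_of_false hx ?_
      rintro ⟨φ⟩
      exact (φ.symm 0).elim0
  cases hu : unbits (Mat × Mat) x with
  | none =>
    refine hbad ?_ (by unfold gmap; rw [hu]; rfl)
    rintro ⟨n, m, G, H, rfl, _⟩
    rw [unbits_bits] at hu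
    exact absurd hu (by simp)
  | some p =>
    obtain ⟨M, M'⟩ := p
    have hx := bits_of_unbits hu
    by_cases hv : valid M = true ∧ valid M' = true
    · obtain ⟨n, G, hG⟩ := (valid_iff M).1 hv.1
      obtain ⟨n', H, hH⟩ := (valid_iff M').1 hv.2
      refine ⟨n, n', G, H, ?_, ?_⟩
      · unfold gmap
        rw [hu, Option.elim_some, hv.1, hv.2]
        simp only [Bool.and_self, cond_true]
        rw [← hG, ← hH, red_adjMatrix hadj, red_adjMatrix hadj]
      · rw [hiff, ← hx, ← hG, ← hH, mem_GI]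
    · refine hbad ?_ ?_
      · rintro ⟨n, m, G, H, h, _⟩
        rw [← hx] at h
        have h1 := bits_injective h
        rw [Prod.mk.injEq] at h1
        exact hv ⟨(valid_iff M).2 ⟨n, G, h1.1.symm⟩, (valid_iff M').2 ⟨m, H, h1.2.symm⟩⟩
      · unfold gmap
        rw [hu, Option.elim_some]
        have : (valid M && valid M') = false := by
          rw [Bool.eq_false_iff]
          intro h
          rw [Bool.and_eq_true] at h
          exact hv h
        simp only [this, cond_false]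

/-- **Isomorphism is as hard for bundles as for all graphs.** -/
theorem complete (hmono : Monotone m) (hm : UPoly fun M : Mat => m M.length)
    (hp : Poly fun p : Mat × Bool × ℕ × ℕ => adjX p.1.length p.2.1 p.2.2.1 p.2.2.2)
    (hadj : ∀ n c (s t : Fin (m n)), adjX n c s t = true ↔ (X n c).Adj s t)
    {D : ℕ} (hD : ∀ n c u, ((X n c).neighborSet u).ncard ≤ D) (hDm : ∀ n, D + 2 < m n)
    (hX : ∀ n, IsEmpty (X n false ≃g X n true))
    (𝒞 : (n : ℕ) → SimpleGraph (Fin n) → Prop) (hB : ∀ n G, 𝒞 _ (TT m X n G)) :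
    (∃ (N : ℕ → ℕ) (T : ∀ n, SimpleGraph (Fin n) → SimpleGraph (Fin (N n)))
        (F : List Bool → List Bool), PolyTime F ∧
      (∀ n G, F (bits (adjMatrix G)) = bits (adjMatrix (T n G))) ∧
      (∀ n G, 𝒞 _ (T n G)) ∧
      ∀ n m G H, Nonempty (T n G ≃g T m H) ↔ Nonempty (G ≃g H)) ∧
    ((∃ A : List Bool → List Bool, PolyTime A ∧
        ∀ (n m : ℕ) (G : SimpleGraph (Fin n)) (H : SimpleGraph (Fin m)),
          𝒞 n G → 𝒞 m H →
          (A (bits (adjMatrix G, adjMatrix H)) = [true] ↔ Nonempty (G ≃g H))) ↔ InP GI) ∧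
    ((∀ L : Set (List Bool), InNP L → ∃ g : List Bool → List Bool, PolyTime g ∧
        ∀ x, ∃ (n m : ℕ) (G : SimpleGraph (Fin n)) (H : SimpleGraph (Fin m)),
          𝒞 n G ∧ 𝒞 m H ∧ g x = bits (adjMatrix G, adjMatrix H) ∧
          (x ∈ L ↔ Nonempty (G ≃g H))) ↔ NPHard GI) := by
  have hiff : ∀ (n n' : ℕ) (G : SimpleGraph (Fin n)) (H : SimpleGraph (Fin n')),
      Nonempty (TT m X n G ≃g TT m X n' H) ↔ Nonempty (G ≃g H) :=
    fun n n' G H => TT_iso_iff hmono hD hDm hX G H
  refine ⟨⟨size m, TT m X, _, polyTime_opt (Poly.optMap (o := unbits Mat)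
    (f := fun _ M => red m adjX M) poly_unbits ((poly_red hm hp).comp (Poly.snd Poly.id))), ?_,
    hB, hiff⟩, ?_, ?_⟩
  · intro n G
    simp only [unbits_bits, Option.map_some, red_adjMatrix hadj]
  · constructor
    · rintro ⟨A, hA, h⟩
      refine ⟨fun x => A (bits (gmap m adjX x)), H642R2.TMSim.polyTime_comp hA
        (polyTime_bits (poly_gmap hm hp)), fun x => ?_⟩
      obtain ⟨n, n', G, H, h1, h2⟩ := gmap_spec hadj hiff x
      show x ∈ GI ↔ A (bits (gmap m adjX x)) = [true]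
      rw [h2, h1, h _ _ _ _ (hB _ _) (hB _ _)]
    · rintro ⟨A, hA, h⟩
      exact ⟨A, hA, fun n m G H _ _ => by rw [← h, mem_GI]⟩
  · constructor
    · intro h L hL
      obtain ⟨g, hg, h1⟩ := h L hL
      refine ⟨g, hg, fun x => ?_⟩
      obtain ⟨n, m, G, H, _, _, h2, h3⟩ := h1 x
      rw [h2, mem_GI, h3]
    · intro h L hL
      obtain ⟨f, hf, hfL⟩ := h L hL
      have hpt : PolyTime (fun x => bits (gmap m adjX (f x))) :=
        H642R2.TMSim.polyTime_comp (g := fun x => bits (gmap m adjX x)) (f := f)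
          (polyTime_bits (poly_gmap hm hp)) hf
      refine ⟨fun x => bits (gmap m adjX (f x)), hpt, fun x => ?_⟩
      obtain ⟨n, n', G, H, h1, h2⟩ := gmap_spec hadj hiff (f x)
      exact ⟨_, _, TT m X n G, TT m X n' H, hB _ _, hB _ _, congrArg bits h1, (hfL x).trans h2⟩

end Pool.Agent.NPC.GW677
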