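import Pool.Graph.R_seed8.TH658.Sos.Im
import Pool.Graph.R_seed8.TH658.Sos.Pc
import Pool.Agent.H677.GW.FamBundle

/-!
# Weisfeiler-Leman, invertible maps and algebraic proofs on copies of the members of a family
-/

set_option autoImplicit false
set_option linter.unusedSectionVars false

namespace Pool.Agent.H677.GW

open Pool.Agent.Y598.IM Pool.Agent.Y598.Circ Pool.Agent.W185.SRG Pool.Agent.TH658.Sos

section wl

variable {V W Z : Type} [Fintype V] [Fintype W] [Fintype Z]

theorem wl_trans {k : ℕ} {G : SimpleGraph V} {H : SimpleGraph W} {J : SimpleGraph Z}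
    (h : WLEquivalent k G H) (h' : WLEquivalent k H J) : WLEquivalent k G J := by
  obtain ⟨ψ, hψ⟩ := h
  obtain ⟨ψ', hψ'⟩ := h'
  exact ⟨ψ.trans ψ', fun t S => (hψ t S).trans (hψ' t (ψ S))⟩

/-- The game for isomorphic graphs. -/
def isoGame {G : SimpleGraph V} {H : SimpleGraph W} (φ : G ≃g H) (k : ℕ) : Game k G H where
  Good _ S S' := S' = fun i => φ (S i)
  zero _ _ := Subsingleton.elim _ _
  ext n _ S S' h := by
    subst h
    refine ⟨φ.toEquiv, fun x => ?_⟩
    funext i
    refine Fin.lastCases ?_ (fun i => ?_) i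
    · rw [Fin.snoc_last, Fin.snoc_last]
      rfl
    · rw [Fin.snoc_castSucc, Fin.snoc_castSucc]
  restr n m σ S S' h := by
    subst h
    rfl
  iso S S' h := by
    subst h
    unfold isoType
    refine Prod.ext ?_ ?_
    · funext i j
      exact propext φ.injective.eq_iff.symm
    · funext i j
      exact propext φ.map_adj_iff.symm

theorem wl_iso {G : SimpleGraph V} {H : SimpleGraph W} (φ : G ≃g H) (k : ℕ) :
    WLEquivalent k G H := (isoGame φ k).wlEquivalent

end wl

section act

variable {X L V B : Type} [AddCommGroup X] [SemilatticeSup L] [OrderBot L] (F : Fam X L V B)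
  {V1 V2 : Type} {b b' : B} {G : SimpleGraph V1} {H : SimpleGraph V2}

/-- The bijections between copies of members of a family. -/
def toAct (φ : V1 ≃ V) (hφ : ∀ x y, G.Adj x y ↔ F.G b (φ x) (φ y)) (ψ : V2 ≃ V)
    (hψ : ∀ x y, H.Adj x y ↔ F.G b' (ψ x) (ψ y)) : Act (F.toSys b b') G H where
  b M := φ.trans ((F.act M).trans ψ.symm)
  lv u := F.lv (φ u)
  lv' u := F.lv (ψ u)
  c := F.c
  inv M n u hn := by
    show ψ.symm (F.act (M + n) (φ u)) = ψ.symm (F.act M (φ u))
    rw [F.act_add, F.fix n (φ u) hn]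
  lev M u := by
    show F.lv (ψ (ψ.symm (F.act M (φ u)))) = F.lv (φ u)
    rw [Equiv.apply_symm_apply, F.lv_act]
  size u := F.size_lv (φ u)
  iso u u' M hM := by
    show G.Adj u u' ↔ H.Adj (ψ.symm (F.act M (φ u))) (ψ.symm (F.act M (φ u')))
    rw [hφ, hψ, Equiv.apply_symm_apply, Equiv.apply_symm_apply]
    exact F.adj b b' _ _ M hM

theorem toAct_torsor (φ : V1 ≃ V) (hφ : ∀ x y, G.Adj x y ↔ F.G b (φ x) (φ y)) (ψ : V2 ≃ V)
    (hψ : ∀ x y, H.Adj x y ↔ F.G b' (ψ x) (ψ y)) : (toAct F φ hφ ψ hψ).Torsor := by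
  intro M h u
  show ψ.symm (F.act (M + h) (φ u)) = ψ.symm (F.act M (φ (φ.symm ((F.act 0).symm
    (ψ (ψ.symm (F.act h (φ u))))))))
  have h1 : (F.act 0).symm (F.act h (φ u)) = F.act h (φ u) := by
    rw [Equiv.symm_apply_eq, F.act_zero]
  rw [Equiv.apply_symm_apply, Equiv.apply_symm_apply, h1, F.act_add]

end act

/-- The graphs `G` and `H` are not distinguished by the following methods of dimension (or degree)
`k`: the Weisfeiler-Leman method, the invertible-map test over all fields of characteristic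
different from two at once, the polynomial calculus over fields of characteristic different from two
and the Positivstellensatz calculus (sums of squares) over the reals. -/
def Indistinguishable {V W : Type} [Fintype V] [Fintype W] (k : ℕ) (G : SimpleGraph V)
    (H : SimpleGraph W) : Prop :=
  WLEquivalent k G H ∧ IMEquiv 2 k G H ∧
    (∀ (K : Type) [Field K], (2 : K) ≠ 0 → ¬ PCRefutes K G H k) ∧ ¬ PosRefutes G H k

/-- Copies of members of a family are not distinguished. -/
theorem indist_of_fam {X L V B : Type} [AddCommGroup X] [SemilatticeSup L] [OrderBot L]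
    (F : Fam X L V B) [Fintype X] [Fintype V] {V1 V2 : Type} [Fintype V1] [Fintype V2] {b b' : B}
    {G : SimpleGraph V1} {H : SimpleGraph V2} (Gs : B → SimpleGraph V)
    (hG : ∀ b, F.G b = (Gs b).Adj) (φ : G ≃g Gs b) (ψ : H ≃g Gs b') {k : ℕ}
    (hX : ∀ (K : Type) [Field K], (2 : K) ≠ 0 → (Fintype.card X : K) ≠ 0)
    (hK : 4 * (F.c * k) ≤ F.K) (hK' : F.c * (k + 1) ≤ F.K) (hK3 : 3 * (F.c * (k + 1)) ≤ F.K) :
    Indistinguishable k G H := by
  have hφ : ∀ x y, G.Adj x y ↔ F.G b (φ x) (φ y) := by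
    intro x y
    rw [hG]
    exact φ.map_adj_iff.symm
  have hψ : ∀ x y, H.Adj x y ↔ F.G b' (ψ x) (ψ y) := by
    intro x y
    rw [hG]
    exact ψ.map_adj_iff.symm
  have hc : F.c + F.c ≤ F.K := by
    have h1 : F.c * (k + 1) = F.c * k + F.c := by ring
    omega
  refine ⟨?_, ?_, ?_, ?_⟩
  · exact wl_trans (wl_iso φ k) (wl_trans (F.wl Gs hG b b' k hK') (wl_iso ψ.symm k))
  · refine Act.imEquiv (toAct_torsor F φ.toEquiv hφ ψ.toEquiv hψ) (p := 2) ?_ hK hc
    intro K _ hp
    exact hX K (by exact_mod_cast hp)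
  · intro K _ hp
    exact (toAct F φ.toEquiv hφ ψ.toEquiv hψ).not_pcRefutes K (hX K hp) hK3
  · exact (toAct F φ.toEquiv hφ ψ.toEquiv hψ).not_posRefutes hK3

end Pool.Agent.H677.GW
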