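import Pool.Graph.R_seed8.Y598.CG.Sum
import Pool.Agent.H677.GW.Red

/-!
# Numbered Cai-Fürer-Immerman gadgets over lamplighter graphs
-/

set_option autoImplicit false
set_option linter.unusedSectionVars false

namespace Pool.Agent.H677.GW

open Pool.Agent.Y598.CG Pool.Agent.Y598.VT

/-- The elements of `ZMod (q + 1)` are numbered. -/
def zf (q : ℕ) : Fin (q + 1) ≃ ZMod (q + 1) := Equiv.refl _

theorem zf_symm_val {q : ℕ} (i : ZMod (q + 1)) : ((zf q).symm i : ℕ) = i.val := rfl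

/-- The strings are numbered. -/
def eX (q : ℕ) : Fin (3 ^ (q + 1)) ≃ (ZMod (q + 1) → ZMod 3) :=
  finFunctionFinEquiv.symm.trans (Equiv.arrowCongr (zf q) (zf 2))

theorem eX_apply {q : ℕ} (a : Fin (3 ^ (q + 1))) (l : ZMod (q + 1)) :
    (eX q a l).val = a / 3 ^ l.val % 3 := rfl

/-- The vertices of the base graph are numbered. -/
def eLp (q : ℕ) : Fin (3 ^ (q + 1) * (q + 1) * 2) ≃ Lp (q + 1) :=
  (finProdFinEquiv.symm.trans (Equiv.prodCongr
    (finProdFinEquiv.symm.trans (Equiv.prodCongr (eX q) (zf q))) finTwoEquiv)).trans Lp.equiv.symm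

/-- The vertices of the gadget are numbered. -/
def eCv (q : ℕ) : Fin (3 ^ (q + 1) * (q + 1) * 2 * (2 * 2)) ≃ Cv (Lp (q + 1)) :=
  finProdFinEquiv.symm.trans (Equiv.prodCongr (eLp q)
    (finProdFinEquiv.symm.trans (Equiv.prodCongr (zf 1) (zf 1))))

/-- The numbers of the components of the vertex `u` are `a`, `i`, `s`, `β`, `γ`. -/
structure Num {q : ℕ} (u : Cv (Lp (q + 1))) (a i s β γ : ℕ) : Prop where
  ha : ∀ l : ZMod (q + 1), (u.1.x l).val = a / 3 ^ l.val % 3
  hlt : a < 3 ^ (q + 1)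
  hi : u.1.i.val = i
  hs : u.1.s = false ↔ s = 0
  hs2 : s < 2
  hβ : u.2.1.val = β
  hγ : u.2.2.val = γ

theorem num_eCv {q : ℕ} (w : Fin (3 ^ (q + 1) * (q + 1) * 2 * (2 * 2))) :
    Num (eCv q w) (w / 4 / 2 / (q + 1)) (w / 4 / 2 % (q + 1)) (w / 4 % 2) (w % 4 / 2)
      (w % 4 % 2) where
  ha l := rfl
  hlt := by
    have h1 := w.isLt
    rw [Nat.div_div_eq_div_mul, Nat.div_div_eq_div_mul, Nat.div_lt_iff_lt_mul (by positivity)]
    calc (w : ℕ) < _ := h1
      _ = _ := by ring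
  hi := rfl
  hs := finTwo_iff' _
  hs2 := Nat.mod_lt _ (by norm_num)
  hβ := rfl
  hγ := rfl
where
  finTwo_iff' (s : Fin 2) : finTwoEquiv s = false ↔ (s : ℕ) = 0 := by
    revert s
    decide

/-- The test for adjacency of a vertex of the first side and a vertex of the second side. -/
def core (pw : ℕ → ℕ) (r : ℕ) (c : Bool) (a i β γ a' i' β' γ' : ℕ) : Bool :=
  ((decide (a' = a) && decide (i' = i)) &&
    decide ((β + γ) % 2 = (β' + γ' + bif c then 1 else 0) % 2)) ||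
  (((((List.range r).all fun l => decide (a' / pw l % 3 = (a / pw l % 3 +
      bif decide (l = i) then 1 else 0) % 3)) && decide (i' = i)) && decide (β = β')) ||
    ((decide (a' = a) && decide (i' = (i + 1) % r)) && decide (γ = γ')))

variable {q : ℕ}

theorem tw_false' (c : Bool) {g : Lp (q + 1)} (h : g.s = false) : tw c g = 0 := by
  unfold tw
  rw [h]
  simp

theorem tw_true' (c : Bool) {g : Lp (q + 1)} (h : g.s = true) :
    tw c g = if c then 1 else 0 := by
  unfold tw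
  rw [h]
  simp

/-- The edges of the gadget. -/
theorem adj_sides (hr : 3 ≤ q + 1) (c : Bool) {u v : Cv (Lp (q + 1))} (hu : u.1.s = false)
    (hv : v.1.s = true) : (cfi (prt hr) (tw c)).Adj u v ↔
      ((v.1.x = u.1.x ∧ v.1.i = u.1.i ∧ u.2.1 + u.2.2 = (if c then 1 else 0) + v.2.1 + v.2.2) ∨
      (v.1.x = u.1.x + un u.1.i 1 ∧ v.1.i = u.1.i ∧ u.2.1 = v.2.1) ∨
      (v.1.x = u.1.x ∧ v.1.i = u.1.i + 1 ∧ u.2.2 = v.2.2)) := by
  obtain ⟨⟨x, i, s⟩, β, γ⟩ := u
  obtain ⟨⟨x', i', s'⟩, β', γ'⟩ := v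
  simp only at hu hv
  subst hu hv
  rw [cfi_adj]
  have key : ∀ (P : Fin 3 → Prop), (∃ j, P j) ↔ (P 0 ∨ P 1 ∨ P 2) := by
    intro P
    constructor
    · rintro ⟨j, hj⟩
      rcases fin3 j with rfl | rfl | rfl
      · exact Or.inl hj
      · exact Or.inr (Or.inl hj)
      · exact Or.inr (Or.inr hj)
    · rintro (h | h | h)
      · exact ⟨0, h⟩
      · exact ⟨1, h⟩
      · exact ⟨2, h⟩
  rw [key]
  have e0 : (prt hr).nb ⟨x, i, false⟩ 0 = ⟨x, i, true⟩ := nb_f0 x i
  have e1 : (prt hr).nb ⟨x, i, false⟩ 1 = ⟨x + un i 1, i, true⟩ := nb_f1 x i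
  have e2 : (prt hr).nb ⟨x, i, false⟩ 2 = ⟨x, i + 1, true⟩ := nb_f2 x i
  have hrv : ∀ j, (prt hr).rv j = j := fun _ => rfl
  simp only [e0, e1, e2, hrv, val_zero, val_one, val_two, Lp.mk.injEq, and_true, tw_false' c,
    tw_true' c, zero_add, and_assoc]
  refine or_congr ?_ (or_congr ?_ ?_)
  · constructor
    · rintro ⟨rfl, rfl, h⟩
      exact ⟨rfl, rfl, h⟩
    · rintro ⟨rfl, rfl, h⟩
      exact ⟨rfl, rfl, h⟩
  · constructor
    · rintro ⟨rfl, rfl, h⟩
      exact ⟨rfl, rfl, h⟩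
    · rintro ⟨rfl, rfl, h⟩
      exact ⟨rfl, rfl, h⟩
  · constructor
    · rintro ⟨rfl, rfl, h⟩
      exact ⟨rfl, rfl, h⟩
    · rintro ⟨rfl, rfl, h⟩
      exact ⟨rfl, rfl, h⟩

/-- Vertices of the same side are not adjacent. -/
theorem not_adj_same (hr : 3 ≤ q + 1) (c : Bool) {u v : Cv (Lp (q + 1))} (h : u.1.s = v.1.s) :
    ¬ (cfi (prt hr) (tw c)).Adj u v := by
  rintro ⟨j, h1, _⟩
  have h2 : (nb u.1 j).s = v.1.s := congrArg Lp.s h1
  rw [nb_s, h] at h2
  cases hv : v.1.s <;> rw [hv] at h2 <;> exact absurd h2 (by decide)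

theorem x_eq_iff {u v : Cv (Lp (q + 1))} {a i s β γ a' i' s' β' γ' : ℕ} (hu : Num u a i s β γ)
    (hv : Num v a' i' s' β' γ') : v.1.x = u.1.x ↔ a' = a := by
  have h1 : ∀ {w : Cv (Lp (q + 1))} {b j t δ ζ : ℕ} (hw : Num w b j t δ ζ),
      eX q ⟨b, hw.hlt⟩ = w.1.x := by
    intro w b j t δ ζ hw
    funext l
    apply ZMod.val_injective
    rw [eX_apply, hw.ha]
  rw [← h1 hu, ← h1 hv, (eX q).injective.eq_iff, Fin.mk.injEq]

theorem x_succ_iff {u v : Cv (Lp (q + 1))} {a i s β γ a' i' s' β' γ' : ℕ} (hu : Num u a i s β γ)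
    (hv : Num v a' i' s' β' γ') : v.1.x = u.1.x + un u.1.i 1 ↔
      ∀ l < q + 1, a' / 3 ^ l % 3 = (a / 3 ^ l % 3 + bif decide (l = i) then 1 else 0) % 3 := by
  have key : ∀ l : ZMod (q + 1), v.1.x l = (u.1.x + un u.1.i 1) l ↔ a' / 3 ^ l.val % 3 =
      (a / 3 ^ l.val % 3 + bif decide (l.val = i) then 1 else 0) % 3 := by
    intro l
    rw [← (ZMod.val_injective 3).eq_iff, hv.ha, Pi.add_apply, ZMod.val_add, hu.ha]
    have h1 : (un u.1.i (1 : ZMod 3) l).val = bif decide (l.val = i) then 1 else 0 := by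
      by_cases h : l = u.1.i
      · rw [h, un_self, hu.hi, decide_eq_true rfl, cond_true]
        rfl
      · have h2 : l.val ≠ i := by
          intro h2
          apply h
          apply ZMod.val_injective
          rw [h2, hu.hi]
        rw [un_ne h, decide_eq_false h2, cond_false]
        rfl
    rw [h1]
  constructor
  · intro h l hl
    have h1 := (key (zf q ⟨l, hl⟩)).1 (congrFun h _)
    exact h1
  · intro h
    funext l
    exact (key l).2 (h l.val (ZMod.val_lt l))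

theorem i_eq_iff {u v : Cv (Lp (q + 1))} {a i s β γ a' i' s' β' γ' : ℕ} (hu : Num u a i s β γ)
    (hv : Num v a' i' s' β' γ') : v.1.i = u.1.i ↔ i' = i := by
  rw [← (ZMod.val_injective (q + 1)).eq_iff, hu.hi, hv.hi]

theorem i_succ_iff (hr : 3 ≤ q + 1) {u v : Cv (Lp (q + 1))} {a i s β γ a' i' s' β' γ' : ℕ}
    (hu : Num u a i s β γ) (hv : Num v a' i' s' β' γ') :
    v.1.i = u.1.i + 1 ↔ i' = (i + 1) % (q + 1) := by
  rw [← (ZMod.val_injective (q + 1)).eq_iff, ZMod.val_add, hu.hi, hv.hi, ZMod.val_one'' (by omega)]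

theorem z2_add_iff (c : Bool) (x y z w : ZMod 2) :
    x + y = (if c then 1 else 0) + z + w ↔
      (x.val + y.val) % 2 = (z.val + w.val + bif c then 1 else 0) % 2 := by
  revert x y z w
  cases c <;> decide

/-- The numerical test is correct. -/
theorem core_iff (hr : 3 ≤ q + 1) (c : Bool) {pw : ℕ → ℕ} (hpw : ∀ l < q + 1, pw l = 3 ^ l)
    {u v : Cv (Lp (q + 1))} {a i s β γ a' i' s' β' γ' : ℕ}
    (hu : Num u a i s β γ) (hv : Num v a' i' s' β' γ') (h0 : u.1.s = false) (h1 : v.1.s = true) :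
    core pw (q + 1) c a i β γ a' i' β' γ' = true ↔ (cfi (prt hr) (tw c)).Adj u v := by
  rw [adj_sides hr c h0 h1, x_eq_iff hu hv, x_succ_iff hu hv, i_eq_iff hu hv,
    i_succ_iff hr hu hv, z2_add_iff, ← (ZMod.val_injective 2).eq_iff (a := u.2.1),
    ← (ZMod.val_injective 2).eq_iff (a := u.2.2), hu.hβ, hu.hγ, hv.hβ, hv.hγ]
  unfold core
  simp only [Bool.or_eq_true, Bool.and_eq_true, decide_eq_true_eq, List.all_eq_true,
    List.mem_range, and_assoc]
  refine or_congr Iff.rfl (or_congr (and_congr_left fun _ => ?_) Iff.rfl)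
  refine forall_congr' fun l => forall_congr' fun hl => ?_
  rw [hpw l hl]

/-- The test for adjacency in the gadget. -/
def adjN (pw : ℕ → ℕ) (r : ℕ) (c : Bool) (s t : ℕ) : Bool :=
  bif decide (s / 4 % 2 = 0) && decide (t / 4 % 2 = 1) then
    core pw r c (s / 4 / 2 / r) (s / 4 / 2 % r) (s % 4 / 2) (s % 4 % 2)
      (t / 4 / 2 / r) (t / 4 / 2 % r) (t % 4 / 2) (t % 4 % 2)
  else bif decide (s / 4 % 2 = 1) && decide (t / 4 % 2 = 0) then
    core pw r c (t / 4 / 2 / r) (t / 4 / 2 % r) (t % 4 / 2) (t % 4 % 2)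
      (s / 4 / 2 / r) (s / 4 / 2 % r) (s % 4 / 2) (s % 4 % 2)
  else false

theorem adjN_iff (hr : 3 ≤ q + 1) (c : Bool) {pw : ℕ → ℕ} (hpw : ∀ l < q + 1, pw l = 3 ^ l)
    (s t : Fin (3 ^ (q + 1) * (q + 1) * 2 * (2 * 2))) :
    adjN pw (q + 1) c s t = true ↔ (cfi (prt hr) (tw c)).Adj (eCv q s) (eCv q t) := by
  have hs := num_eCv s
  have ht := num_eCv t
  have hs2 := hs.hs2
  have ht2 := ht.hs2
  unfold adjN
  rcases Nat.lt_or_ge ((s : ℕ) / 4 % 2) 1 with h1 | h1 <;>
    rcases Nat.lt_or_ge ((t : ℕ) / 4 % 2) 1 with h2 | h2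
  · have e1 : (s : ℕ) / 4 % 2 = 0 := by omega
    have e2 : (t : ℕ) / 4 % 2 = 0 := by omega
    simp only [e1, e2, zero_ne_one, decide_false, decide_true, Bool.and_false, Bool.false_and,
      cond_false, Bool.false_eq_true, false_iff]
    exact not_adj_same hr c ((hs.hs.2 e1).trans (ht.hs.2 e2).symm)
  · have e1 : (s : ℕ) / 4 % 2 = 0 := by omega
    have e2 : (t : ℕ) / 4 % 2 = 1 := by omega
    simp only [e1, e2, decide_true, Bool.and_true, cond_true]
    refine core_iff hr c hpw hs ht (hs.hs.2 e1) ?_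
    rw [← Bool.not_eq_false, ht.hs, e2]
    simp
  · have e1 : (s : ℕ) / 4 % 2 = 1 := by omega
    have e2 : (t : ℕ) / 4 % 2 = 0 := by omega
    simp only [e1, e2, zero_ne_one, one_ne_zero, decide_false, decide_true, Bool.and_false,
      Bool.and_true, cond_false, cond_true]
    rw [SimpleGraph.adj_comm]
    refine core_iff hr c hpw ht hs (ht.hs.2 e2) ?_
    rw [← Bool.not_eq_false, hs.hs, e1]
    simp
  · have e1 : (s : ℕ) / 4 % 2 = 1 := by omega
    have e2 : (t : ℕ) / 4 % 2 = 1 := by omega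
    simp only [e1, e2, one_ne_zero, decide_false, decide_true, Bool.and_false, Bool.false_and,
      cond_false, Bool.false_eq_true, false_iff]
    refine not_adj_same hr c ?_
    have a1 : (eCv q s).1.s = true := by
      rw [← Bool.not_eq_false, hs.hs, e1]
      simp
    have a2 : (eCv q t).1.s = true := by
      rw [← Bool.not_eq_false, ht.hs, e2]
      simp
    rw [a1, a2]

/-- The degrees in the gadget are at most six. -/
theorem degree_cfi {U : Type} [Finite U] (P : Ports U) (b : U → ZMod 2) (x : Cv U) :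
    ((cfi P b).neighborSet x).ncard ≤ 6 := by
  classical
  have h1 : ∀ y : (cfi P b).neighborSet x, ∃ j, P.nb x.1 j = y.1.1 ∧
      val b x j = val b y.1 (P.rv j) := fun y => y.2
  choose f hf using h1
  have hl : ∀ j : Fin 3, ∃ l : Fin 3, l ≠ j := by decide
  choose o ho using hl
  let F : (cfi P b).neighborSet x → Fin 3 × ZMod 2 := fun y =>
    (f y, val b y.1 (o (P.rv (f y))))
  have hF : Function.Injective F := by
    intro y z h
    have h2 : f y = f z := congrArg Prod.fst h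
    have h3 : val b y.1 (o (P.rv (f y))) = val b z.1 (o (P.rv (f z))) := congrArg Prod.snd h
    rw [← h2] at h3
    have h4 := hf y
    have h5 := hf z
    rw [← h2] at h5
    refine Subtype.ext (eq_of_val (b := b) (h4.1.symm.trans h5.1) (ho (P.rv (f y))) h3
      (h4.2.symm.trans h5.2))
  have h2 := Nat.card_le_card_of_injective F hF
  rw [Nat.card_prod, Nat.card_fin, Nat.card_zmod] at h2
  rwa [Nat.card_coe_set_eq] at h2

/-! ### The family -/

/-- The parameter of the gadget for graphs with `n` vertices. -/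
def qq (C n : ℕ) : ℕ := 2 * ((C + 3) * (n + 2).size)

theorem size_ge (n : ℕ) : 2 ≤ (n + 2).size := by
  have h1 : (2 : ℕ).size ≤ (n + 2).size := Nat.size_le_size (by omega)
  have h2 : (2 : ℕ).size = 2 := by decide
  omega

theorem qq_ge (C n : ℕ) : 12 ≤ qq C n := by
  unfold qq
  have h1 := size_ge n
  have h2 : 3 * 2 ≤ (C + 3) * (n + 2).size := Nat.mul_le_mul (by omega) h1
  omega

theorem hr3 (C n : ℕ) : 3 ≤ qq C n + 1 := by
  have := qq_ge C n
  omega

theorem qq_mono (C : ℕ) {a b : ℕ} (h : a ≤ b) : qq C a ≤ qq C b := by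
  unfold qq
  exact Nat.mul_le_mul_left _ (Nat.mul_le_mul_left _ (Nat.size_le_size (by omega)))

/-- The number of vertices of the gadget. -/
def mm (C n : ℕ) : ℕ := 3 ^ (qq C n + 1) * (qq C n + 1) * 2 * (2 * 2)

theorem mm_mono (C : ℕ) : Monotone (mm C) := by
  intro a b h
  unfold mm
  have h1 := qq_mono C h
  gcongr
  norm_num

theorem mm_gt (C n : ℕ) : 6 + 2 < mm C n := by
  unfold mm
  have h1 := qq_ge C n
  have h2 : 1 ≤ 3 ^ (qq C n + 1) := Nat.one_le_pow _ _ (by norm_num)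
  have h3 : 1 * 13 ≤ 3 ^ (qq C n + 1) * (qq C n + 1) := Nat.mul_le_mul h2 (by omega)
  omega

/-- The gadget for graphs with `n` vertices. -/
def XX (C n : ℕ) (c : Bool) : SimpleGraph (Fin (mm C n)) :=
  (cfi (prt (hr3 C n)) (tw c)).comap (eCv (qq C n))

/-- The numbering of the gadget is an isomorphism. -/
def XXiso (C n : ℕ) (c : Bool) : XX C n c ≃g cfi (prt (hr3 C n)) (tw c) :=
  SimpleGraph.Iso.comap (eCv (qq C n)) _

theorem XX_degree (C n : ℕ) (c : Bool) (u : Fin (mm C n)) :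
    ((XX C n c).neighborSet u).ncard ≤ 6 := by
  rw [← iso_ncard (XXiso C n c) u]
  exact degree_cfi _ _ _

theorem sum_tw_false {r : ℕ} [NeZero r] : ∑ v : Lp r, tw false v = 0 :=
  Finset.sum_eq_zero fun v _ => by
    unfold tw
    simp

theorem not_iso (C n : ℕ) :
    IsEmpty (cfi (prt (hr3 C n)) (tw false) ≃g cfi (prt (hr3 C n)) (tw true)) := by
  refine ⟨fun φ => ?_⟩
  have h1 := parity φ
  rw [sum_tw_false, sum_tw (by unfold qq; omega)] at h1
  exact absurd h1 (by decide)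

theorem XX_not_iso (C n : ℕ) : IsEmpty (XX C n false ≃g XX C n true) :=
  ⟨fun φ => (not_iso C n).false (((XXiso C n false).symm.trans φ).trans (XXiso C n true))⟩

/-- The adjacency test of the gadget. -/
def adjXX (C n : ℕ) (c : Bool) (s t : ℕ) : Bool :=
  adjN (fun l => 3 ^ min l (qq C n + 1)) (qq C n + 1) c s t

theorem adjXX_iff (C n : ℕ) (c : Bool) (s t : Fin (mm C n)) :
    adjXX C n c s t = true ↔ (XX C n c).Adj s t :=
  adjN_iff (hr3 C n) c (fun l hl => by rw [min_eq_left hl.le]) s t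

end Pool.Agent.H677.GW
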