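import Pool.Agent.H677.GW.Gadget

/-!
# The gadgets are computable in polynomial time
-/

set_option autoImplicit false
set_option linter.unusedSectionVars false

namespace Pool.Agent.NPC.GW677

open Pool.Agent.H677.GW Pool.Agent.NPC.UB129 Pool.Agent.NPC.R671

theorem size_three_pow (k : ℕ) : (3 ^ k).size ≤ 2 * k + 1 := by
  rw [Nat.size_le]
  calc 3 ^ k ≤ 4 ^ k := Nat.pow_le_pow_left (by norm_num) k
    _ = 2 ^ (2 * k) := by rw [pow_mul]; norm_num
    _ < 2 ^ (2 * k + 1) := Nat.pow_lt_pow_right (by norm_num) (by omega)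

theorem iterate_three (k : ℕ) : (fun s : ℕ => 3 * s)^[k] 1 = 3 ^ k := by
  induction k with
  | zero => rfl
  | succ k ih => rw [Function.iterate_succ_apply', ih, pow_succ, mul_comm]

/-- Powers of three with a small exponent. -/
theorem poly_three_pow {α : Type} [TEnc α] {k : α → ℕ} (hk : UPoly k) :
    Poly (fun a => 3 ^ k a) := by
  have hl : Poly (fun a => List.replicate (k a) ()) := hk
  obtain ⟨r, hr⟩ := hl.sz_le
  refine (Poly.iterLen (l := fun a => List.replicate (k a) ()) (s := fun _ => 1)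
    (F := fun _ (s : ℕ) => 3 * s) hl (Poly.const 1)
    (Poly.mul (Poly.const 3) (Poly.snd Poly.id))
    (Polynomial.C 8 * r + Polynomial.C 5) ?_).congr fun a => ?_
  · intro a j hj
    rw [iterate_three]
    have h1 := sz_nat_le (3 ^ j)
    have h2 := size_three_pow j
    have h3 := length_lt_sz (List.replicate (k a) ())
    have h4 := hr a
    simp only [Polynomial.eval_add, Polynomial.eval_mul, Polynomial.eval_C]
    omega
  · rw [iterate_three, List.length_replicate]

theorem upoly_size_len : UPoly (fun M : Mat => (M.length + 2).size) := by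
  refine UPoly.of_le (n := fun M : Mat => M.length + 2) ?_ (upoly_len.add (UPoly.const 2))
    fun M => Poly.size_le_self _
  have h1 : Poly (fun M : Mat => M.length + 2) := (upoly_len.add (UPoly.const 2)).toPoly
  exact (Poly.length h1.natBits).congr fun M => Nat.size_eq_bits_len _

theorem upoly_rr (C : ℕ) : UPoly (fun M : Mat => qq C M.length + 1) := by
  unfold qq
  exact ((UPoly.const 2).mul ((UPoly.const (C + 3)).mul upoly_size_len)).add (UPoly.const 1)

theorem three_pow_size_le (n : ℕ) : 3 ^ (n + 2).size ≤ (2 * (n + 2)) ^ 2 := by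
  have h1 : 2 ^ ((n + 2).size - 1) ≤ n + 2 := by
    rw [← Nat.lt_size]
    have := size_ge n
    omega
  calc 3 ^ (n + 2).size ≤ 4 ^ (n + 2).size := Nat.pow_le_pow_left (by norm_num) _
    _ = (2 * 2 ^ ((n + 2).size - 1)) ^ 2 := by
      rw [← pow_succ', Nat.sub_add_cancel (by have := size_ge n; omega), ← pow_mul,
        mul_comm, pow_mul]
      norm_num
    _ ≤ _ := Nat.pow_le_pow_left (Nat.mul_le_mul_left _ h1) 2

theorem mm_le (C n : ℕ) : 3 ^ (qq C n + 1) ≤ 3 * (2 * (n + 2)) ^ (4 * (C + 3)) := by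
  unfold qq
  calc 3 ^ (2 * ((C + 3) * (n + 2).size) + 1) = 3 * (3 ^ (n + 2).size) ^ (2 * (C + 3)) := by
        rw [pow_succ, ← pow_mul]
        ring
    _ ≤ 3 * ((2 * (n + 2)) ^ 2) ^ (2 * (C + 3)) :=
        Nat.mul_le_mul_left _ (Nat.pow_le_pow_left (three_pow_size_le n) _)
    _ = _ := by
        rw [← pow_mul]
        ring

theorem upoly_three (C : ℕ) : UPoly (fun M : Mat => 3 ^ (qq C M.length + 1)) := by
  refine UPoly.of_le (n := fun M : Mat => 3 * (2 * (M.length + 2)) ^ (4 * (C + 3)))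
    (poly_three_pow (upoly_rr C)) ?_ fun M => mm_le C M.length
  have h1 := UPoly.eval ((UPoly.const 2).mul (upoly_len.add (UPoly.const 2)))
    (Polynomial.C 3 * Polynomial.X ^ (4 * (C + 3)))
  simpa using h1

theorem upoly_mm (C : ℕ) : UPoly (fun M : Mat => mm C M.length) := by
  unfold mm
  exact (((upoly_three C).mul (upoly_rr C)).mul (UPoly.const 2)).mul (UPoly.const (2 * 2))

theorem poly_core {α : Type} [TEnc α] {r a i β γ a' i' β' γ' : α → ℕ} {c : α → Bool}
    (hr : UPoly r) (hc : Poly c) (ha : Poly a) (hi : Poly i) (hβ : Poly β) (hγ : Poly γ)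
    (ha' : Poly a') (hi' : Poly i') (hβ' : Poly β') (hγ' : Poly γ') :
    Poly (fun x => core (fun l => 3 ^ min l (r x)) (r x) (c x) (a x) (i x) (β x) (γ x) (a' x)
      (i' x) (β' x) (γ' x)) := by
  unfold core
  have hr1 : Poly r := hr.toPoly
  have h1 : Poly (fun x => (List.range (r x)).all fun l =>
      decide (a' x / 3 ^ min l (r x) % 3 = (a x / 3 ^ min l (r x) % 3 +
        bif decide (l = i x) then 1 else 0) % 3)) := by
    refine Poly.all (p := fun x l => decide (a' x / 3 ^ min l (r x) % 3 =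
      (a x / 3 ^ min l (r x) % 3 + bif decide (l = i x) then 1 else 0) % 3)) hr.range ?_
    have h2 : UPoly (fun p : α × ℕ => min p.2 (r p.1)) :=
      UPoly.of_le (Poly.min (Poly.snd Poly.id) (hr1.comp (Poly.fst Poly.id)))
        (hr.comp (Poly.fst Poly.id)) fun p => min_le_right _ _
    have h3 := poly_three_pow h2
    fun_prop
  refine Poly.or ?_ (Poly.or ((h1.and ?_).and ?_) ?_) <;> fun_prop

theorem poly_adjN {α : Type} [TEnc α] {r s t : α → ℕ} {c : α → Bool}
    (hr : UPoly r) (hc : Poly c) (hs : Poly s) (ht : Poly t) :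
    Poly (fun x => adjN (fun l => 3 ^ min l (r x)) (r x) (c x) (s x) (t x)) := by
  unfold adjN
  have hr1 : Poly r := hr.toPoly
  refine Poly.cond ?_ (poly_core hr hc ?_ ?_ ?_ ?_ ?_ ?_ ?_ ?_)
    (Poly.cond ?_ (poly_core hr hc ?_ ?_ ?_ ?_ ?_ ?_ ?_ ?_) (Poly.const _)) <;> fun_prop

theorem poly_adjXX (C : ℕ) : Poly (fun p : Mat × Bool × ℕ × ℕ =>
    adjXX C p.1.length p.2.1 p.2.2.1 p.2.2.2) :=
  poly_adjN ((upoly_rr C).comp (Poly.fst Poly.id)) (Poly.fst (Poly.snd Poly.id))
    (Poly.fst (Poly.snd (Poly.snd Poly.id))) (Poly.snd (Poly.snd (Poly.snd Poly.id)))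

end Pool.Agent.NPC.GW677
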