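import Pool.Agent.H677.GW.GadgetPoly
import Pool.Agent.H677.GW.Act

/-!
# The class of the bundles
-/

set_option autoImplicit false
set_option linter.unusedSectionVars false

namespace Pool.Agent.H677.GW

open Pool.Agent.Y598.IM Pool.Agent.Y598.CG Pool.Agent.Y598.VT Pool.Agent.NPC.GW677

/-- Isomorphic gadgets yield isomorphic bundles. -/
def bundleCongr {V U U' : Type} {X : Bool → SimpleGraph U} {X' : Bool → SimpleGraph U'}
    (e : U ≃ U') (h : ∀ c u v, (X c).Adj u v ↔ (X' c).Adj (e u) (e v)) (b : V × V → Bool) :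
    bundle X b ≃g bundle X' b where
  toEquiv := (Equiv.refl _).sumCongr (Equiv.prodCongr (Equiv.refl _) e)
  map_rel_iff' := by
    rintro (x | ⟨p, u⟩) (y | ⟨q, v⟩)
    · exact Iff.rfl
    · exact Iff.rfl
    · exact Iff.rfl
    · show (p = q ∧ (X' (b p)).Adj (e u) (e v)) ↔ (p = q ∧ (X (b p)).Adj u v)
      rw [h]

/-- The bundles of the gadgets on the original vertices. -/
def Gs (C n : ℕ) (b : Fin n × Fin n → Bool) :
    SimpleGraph (Hub (Fin n) ⊕ ((Fin n × Fin n) × Cv (Lp (qq C n + 1)))) :=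
  bundle (fun c => cfi (prt (hr3 C n)) (tw c)) b

/-- The numbered bundle is isomorphic to the original bundle. -/
noncomputable def TTiso' (C n : ℕ) (G : SimpleGraph (Fin n)) :
    TT (mm C) (XX C) n G ≃g Gs C n (bitsOf G) :=
  (TTiso (mm C) (XX C) n G).trans (bundleCongr (X' := fun c => cfi (prt (hr3 C n)) (tw c))
    (eCv (qq C n)) (fun _ _ _ => Iff.rfl) _)

theorem tw_inj (C n : ℕ) :
    Function.Injective fun b => (cfi (prt (hr3 C n)) (tw b)).Adj := by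
  intro a b h
  have h1 : cfi (prt (hr3 C n)) (tw a) = cfi (prt (hr3 C n)) (tw b) := SimpleGraph.ext h
  have h2 := not_iso C n
  cases a <;> cases b
  · rfl
  · rw [h1] at h2
    exact (h2.false (RelIso.refl _)).elim
  · rw [← h1] at h2
    exact (h2.false (RelIso.refl _)).elim
  · rfl

theorem two_le' (C n : ℕ) : 2 ≤ (qq C n + 1) * 3 ^ (qq C n + 1 - 1) := by
  have h1 := qq_ge C n
  have h2 : 1 ≤ 3 ^ (qq C n + 1 - 1) := Nat.one_le_pow _ _ (by norm_num)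
  calc 2 ≤ (qq C n + 1) * 1 := by omega
    _ ≤ _ := Nat.mul_le_mul_left _ h2

/-- The family of the bundles. -/
noncomputable def FF (C n : ℕ) := bundleFam (I := Fin n × Fin n)
  (cFam (hr3 C n) (two_le' C n)
    (inc_LE (r := qq C n + 1) (by have := qq_ge C n; omega)) tw (tw_inj C n))
  (hubAdj (V := Fin n)) (hubCopy (V := Fin n))

theorem FF_K (C n : ℕ) : (FF C n).K = 3 ^ (qq C n + 1 - 4) := rfl

theorem FF_c (C n : ℕ) : (FF C n).c = 2 := rfl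

/-- All the bundles for graphs with `n` vertices look alike. -/
theorem indist_Gs (C n : ℕ) {V1 V2 : Type} [Fintype V1] [Fintype V2]
    {b b' : Fin n × Fin n → Bool} {G : SimpleGraph V1} {H : SimpleGraph V2}
    (φ : G ≃g Gs C n b) (ψ : H ≃g Gs C n b') {k : ℕ} (hk : 12 * k ≤ 3 ^ (qq C n + 1 - 4)) :
    Indistinguishable k G H := by
  have h0 : 3 ^ 9 ≤ 3 ^ (qq C n + 1 - 4) := Nat.pow_le_pow_right (by norm_num) (by
    have := qq_ge C n
    omega)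
  have h1 : (FF C n).c = 2 := rfl
  have h2 : (FF C n).K = 3 ^ (qq C n + 1 - 4) := rfl
  let _ : Fintype (Fin n × Fin n → Ed (qq C n + 1) → ZMod 2) := Fintype.ofFinite _
  refine indist_of_fam (FF C n) (Gs C n) (fun _ => rfl) φ ψ ?_ ?_ ?_ ?_
  · intro K _ hK
    rw [← Nat.card_eq_fintype_card, Nat.card_fun, Nat.card_fun, Nat.card_zmod, Nat.cast_pow,
      Nat.cast_pow]
    exact pow_ne_zero _ (pow_ne_zero _ (by exact_mod_cast hK))
  · rw [h1, h2]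
    omega
  · rw [h1, h2]
    omega
  · rw [h1, h2]
    omega

/-! ### The parameters -/

theorem exists_C (ρ : ℝ) (hρ : 1 < ρ) : ∃ C : ℕ, 186624 * ((C : ℝ) + 3) ≤ ρ ^ (C + 3) := by
  have h1 := tendsto_pow_const_div_const_pow_of_one_lt 1 hρ
  have h2 : ∀ᶠ n : ℕ in Filter.atTop, (n : ℝ) ^ 1 / ρ ^ n < 1 / 186624 :=
    h1.eventually_lt_const (by norm_num)
  obtain ⟨n, hn⟩ := Filter.eventually_atTop.1 h2
  refine ⟨n, ?_⟩
  have h3 := hn (n + 3) (by omega)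
  rw [pow_one, div_lt_div_iff₀ (by positivity) (by norm_num)] at h3
  push_cast at h3
  linarith

theorem size_le (C n : ℕ) : size (mm C) n ≤ 4 ^ (n + 2).size * mm C n := by
  unfold size
  have h1 := Nat.lt_size_self (n + 2)
  have h2 : (n + 2) * (n + 2) ≤ 4 ^ (n + 2).size := by
    calc (n + 2) * (n + 2) ≤ 2 ^ (n + 2).size * 2 ^ (n + 2).size :=
          Nat.mul_le_mul h1.le h1.le
      _ = 4 ^ (n + 2).size := by rw [← mul_pow]; norm_num
  have h3 : (n + 2) * (n + 2) * mm C n ≤ 4 ^ (n + 2).size * mm C n := Nat.mul_le_mul_right _ h2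
  have h4 := mm_gt C n
  have h5 : (n + 2) * (n + 2) * mm C n = n * n * mm C n + 4 * n * mm C n + 4 * mm C n := by ring
  have h6 : 2 * n * 1 ≤ 4 * n * mm C n := Nat.mul_le_mul (by omega) (by omega)
  omega

/-- The exponential is large. -/
theorem exp_large {ε : ℝ} (hε : 0 < ε) {C S r : ℕ}
    (hC : 186624 * ((C : ℝ) + 3) ≤ ((3 : ℝ) ^ (2 * ε)) ^ (C + 3)) (hS : 2 ≤ S)
    (hr : r = 2 * ((C + 3) * S) + 1) : (7776 : ℝ) * 4 ^ S * r ≤ ((3 : ℝ) ^ r) ^ ε := by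
  have e1 : (((3 : ℝ) ^ (2 * ε)) ^ (C + 3)) ^ S ≤ ((3 : ℝ) ^ r) ^ ε := by
    rw [← pow_mul, ← Real.rpow_natCast, ← Real.rpow_natCast, ← Real.rpow_mul (by norm_num),
      ← Real.rpow_mul (by norm_num)]
    refine Real.rpow_le_rpow_of_exponent_le (by norm_num) ?_
    rw [hr]
    push_cast
    have h1 : 2 * ε * (((C : ℝ) + 3) * S) ≤ (2 * (((C : ℝ) + 3) * S) + 1) * ε := by
      have : (2 * (((C : ℝ) + 3) * S) + 1) * ε = 2 * ε * (((C : ℝ) + 3) * S) + ε := by ring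
      linarith
    exact h1
  have e2 : (186624 * ((C : ℝ) + 3)) ^ S ≤ (((3 : ℝ) ^ (2 * ε)) ^ (C + 3)) ^ S :=
    pow_le_pow_left₀ (by positivity) hC S
  refine le_trans ?_ (e2.trans e1)
  have e3 : (r : ℝ) ≤ 3 * (C + 3) * 2 ^ S := by
    have : r ≤ 3 * (C + 3) * 2 ^ S := by
      have f1 : S < 2 ^ S := Nat.lt_two_pow_self
      have f2 : 3 * 2 ≤ (C + 3) * S := Nat.mul_le_mul (by omega) hS
      calc r = 2 * ((C + 3) * S) + 1 := hr
        _ ≤ 3 * ((C + 3) * S) := by omega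
        _ = 3 * (C + 3) * S := by ring
        _ ≤ _ := Nat.mul_le_mul_left _ f1.le
    exact_mod_cast this
  have e4 : (186624 * ((C : ℝ) + 3)) ^ S = (23328 * ((C : ℝ) + 3)) ^ S * 8 ^ S := by
    rw [← mul_pow]
    congr 1
    ring
  have e5 : 23328 * ((C : ℝ) + 3) ≤ (23328 * ((C : ℝ) + 3)) ^ S := by
    refine le_self_pow₀ ?_ (by omega)
    have : (0 : ℝ) ≤ C := Nat.cast_nonneg C
    linarith
  have e6 : ((4 : ℝ) * 2) ^ S = 8 ^ S := by norm_num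
  calc (7776 : ℝ) * 4 ^ S * r ≤ 7776 * 4 ^ S * (3 * (C + 3) * 2 ^ S) :=
        mul_le_mul_of_nonneg_left e3 (by positivity)
    _ = 23328 * ((C : ℝ) + 3) * (4 * 2) ^ S := by
      rw [mul_pow]
      ring
    _ = 23328 * ((C : ℝ) + 3) * 8 ^ S := by rw [e6]
    _ ≤ (23328 * ((C : ℝ) + 3)) ^ S * 8 ^ S :=
        mul_le_mul_of_nonneg_right e5 (by positivity)
    _ = _ := e4.symm

theorem core_ineq {ε : ℝ} (hε : 0 < ε) {k N S r : ℕ} (hr : 0 < r)
    (h4 : (7776 : ℝ) * 4 ^ S * r ≤ ((3 : ℝ) ^ r) ^ ε) (hk : (k : ℝ) ≤ (N : ℝ) ^ (1 - ε))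
    (hN1 : N ≤ 4 ^ S * (8 * r * 3 ^ r)) (hN2 : 3 ^ r ≤ N) : (972 : ℝ) * k ≤ (3 : ℝ) ^ r := by
  have hN1' : (N : ℝ) ≤ 4 ^ S * (8 * r * 3 ^ r) := by exact_mod_cast hN1
  have hN2' : (3 : ℝ) ^ r ≤ N := by exact_mod_cast hN2
  have h3r : (0 : ℝ) < 3 ^ r := by positivity
  have hNpos : (0 : ℝ) < N := lt_of_lt_of_le h3r hN2'
  have h1 : ((3 : ℝ) ^ r) ^ ε ≤ (N : ℝ) ^ ε := Real.rpow_le_rpow h3r.le hN2' hε.le
  have h2 : (k : ℝ) * (N : ℝ) ^ ε ≤ N := by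
    calc (k : ℝ) * (N : ℝ) ^ ε ≤ (N : ℝ) ^ (1 - ε) * (N : ℝ) ^ ε :=
          mul_le_mul_of_nonneg_right hk (Real.rpow_nonneg hNpos.le _)
      _ = N := by
        rw [← Real.rpow_add hNpos, sub_add_cancel, Real.rpow_one]
  have h3 : (k : ℝ) * ((3 : ℝ) ^ r) ^ ε ≤ 4 ^ S * (8 * r * 3 ^ r) :=
    (mul_le_mul_of_nonneg_left h1 (Nat.cast_nonneg k)).trans (h2.trans hN1')
  have h5 : (k : ℝ) * (7776 * 4 ^ S * r) ≤ 4 ^ S * (8 * r * 3 ^ r) :=
    (mul_le_mul_of_nonneg_left h4 (Nat.cast_nonneg k)).trans h3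
  have hr' : (0 : ℝ) < r := Nat.cast_pos.2 hr
  have h6 : (0 : ℝ) < 4 ^ S * (8 * r) := by positivity
  have h7 : (4 ^ S * (8 * (r : ℝ))) * (972 * k) ≤ (4 ^ S * (8 * r)) * 3 ^ r := by
    calc (4 ^ S * (8 * (r : ℝ))) * (972 * k) = (k : ℝ) * (7776 * 4 ^ S * r) := by ring
      _ ≤ _ := h5
      _ = _ := by ring
  exact le_of_mul_le_mul_left h7 h6

/-- The dimension is large enough. -/
theorem param {ε : ℝ} (hε : 0 < ε) {C : ℕ}
    (hC : 186624 * ((C : ℝ) + 3) ≤ ((3 : ℝ) ^ (2 * ε)) ^ (C + 3)) (n k : ℕ)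
    (hk : (k : ℝ) ≤ (size (mm C) n : ℝ) ^ (1 - ε)) : 12 * k ≤ 3 ^ (qq C n + 1 - 4) := by
  have hq := qq_ge C n
  have hpow : 3 ^ (qq C n + 1 - 4) * 81 = 3 ^ (qq C n + 1) := by
    have e1 : qq C n + 1 = (qq C n + 1 - 4) + 4 := by omega
    conv_rhs => rw [e1, pow_add]
    norm_num
  suffices h : (972 : ℝ) * k ≤ (3 : ℝ) ^ (qq C n + 1) by
    have h1 : 972 * k ≤ 3 ^ (qq C n + 1) := by exact_mod_cast h
    omega
  rcases Nat.eq_zero_or_pos n with rfl | hn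
  · have h1 : ((size (mm C) 0 : ℕ) : ℝ) ^ (1 - ε) ≤ 1 := by
      have e1 : size (mm C) 0 = 0 := by simp [size]
      rw [e1, Nat.cast_zero]
      exact Real.zero_rpow_le_one _
    have h2 : (3 : ℝ) ^ 13 ≤ (3 : ℝ) ^ (qq C 0 + 1) :=
      pow_le_pow_right₀ (by norm_num) (by omega)
    have h3 : (k : ℝ) ≤ 1 := hk.trans h1
    have h4 : (972 : ℝ) * 1 ≤ 3 ^ 13 := by norm_num
    linarith
  · obtain ⟨S, hS⟩ : ∃ S, S = (n + 2).size := ⟨_, rfl⟩
    have hS2 : 2 ≤ S := hS ▸ size_ge n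
    obtain ⟨r, hr⟩ : ∃ r, r = qq C n + 1 := ⟨_, rfl⟩
    have hr' : r = 2 * ((C + 3) * S) + 1 := by rw [hr, hS]; rfl
    have hmm : mm C n = 8 * r * 3 ^ r := by
      rw [hr]
      unfold mm
      ring
    have hN1 := size_le C n
    rw [hmm, ← hS] at hN1
    have hN2 : 3 ^ r ≤ size (mm C) n := by
      unfold size
      rw [hmm]
      have h1 : 1 * 1 * (8 * 1 * 3 ^ r) ≤ n * n * (8 * r * 3 ^ r) := by
        refine Nat.mul_le_mul (Nat.mul_le_mul hn hn) (Nat.mul_le_mul_right _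
          (Nat.mul_le_mul_left _ (by omega)))
      omega
    rw [← hr]
    exact core_ineq hε (by omega) (exp_large hε hC hS2 hr') hk hN1 hN2

end Pool.Agent.H677.GW
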