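import Pool.Graph.R_pool_sql_team_seeded_63374d34.Results.MP_3b70de_al.NoUnitalEmbedding
import Pool.Agent.H677.GW.Red

/-!
# Quantum isomorphisms of bundles
-/

set_option autoImplicit false
set_option linter.unusedSectionVars false

namespace Pool.Agent.H677.GW

open Pool.Agent.Results.MP_3b70de_al.NoUnitalEmbedding Pool.Agent.N11 Pool.Agent.NPC.GW677
  Pool.Agent.NPC.R671 Pool.Agent.NPC.UB129

/-- The graphs `G` and `H` are quantum isomorphic, with a strategy on a Hilbert space of dimension
`d`: there are orthogonal projections `p g h` in `ℂ ^ d` with `∑ h, p g h = 1` for all `g` and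
`∑ g, p g h = 1` for all `h`, and `p g h * p g' h' = 0` unless the relation (equal, adjacent,
distinct and non-adjacent) of `g` and `g'` is that of `h` and `h'`. -/
def QuantumIso {V W : Type} [Fintype V] [Fintype W] (d : ℕ) (G : SimpleGraph V)
    (H : SimpleGraph W) : Prop :=
  ∃ p : V → W → Matrix (Fin d) (Fin d) ℂ,
    (∀ g h, (p g h).conjTranspose = p g h) ∧ (∀ g h, p g h * p g h = p g h) ∧
    (∀ g, ∑ h, p g h = 1) ∧ (∀ h, ∑ g, p g h = 1) ∧
    ∀ g g' h h', ¬ ((g = g' ↔ h = h') ∧ (G.Adj g g' ↔ H.Adj h h')) → p g h * p g' h' = 0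

section general

variable {V W V' W' : Type} [Fintype V] [Fintype W] [Fintype V'] [Fintype W'] {d : ℕ}

theorem QuantumIso.congr {G : SimpleGraph V} {H : SimpleGraph W} {G' : SimpleGraph V'}
    {H' : SimpleGraph W'} (h : QuantumIso d G H) (φ : G' ≃g G) (ψ : H' ≃g H) :
    QuantumIso d G' H' := by
  obtain ⟨p, h1, h2, h3, h4, h5⟩ := h
  refine ⟨fun g h => p (φ g) (ψ h), fun g h => h1 _ _, fun g h => h2 _ _, fun g => ?_, fun h => ?_,
    fun g g' h h' hne => h5 _ _ _ _ ?_⟩
  · rw [← h3 (φ g)]
    exact ψ.toEquiv.sum_comp fun h => p (φ g) h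
  · rw [← h4 (ψ h)]
    exact φ.toEquiv.sum_comp fun g => p g (ψ h)
  · rwa [φ.injective.eq_iff, ψ.injective.eq_iff, φ.map_adj_iff, ψ.map_adj_iff]

theorem QuantumIso.symm {G : SimpleGraph V} {H : SimpleGraph W} (h : QuantumIso d G H) :
    QuantumIso d H G := by
  obtain ⟨p, h1, h2, h3, h4, h5⟩ := h
  exact ⟨fun g h => p h g, fun g h => h1 _ _, fun g h => h2 _ _, h4, h3,
    fun g g' h h' hne => h5 _ _ _ _ fun h0 => hne ⟨h0.1.symm, h0.2.symm⟩⟩

theorem QuantumIso.refl [DecidableEq V] (G : SimpleGraph V) : QuantumIso d G G := by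
  refine ⟨fun g h => if g = h then 1 else 0, fun g h => ?_, fun g h => ?_, fun g => ?_,
    fun h => ?_, fun g g' h h' hne => ?_⟩
  · beta_reduce
    split_ifs
    · exact Matrix.conjTranspose_one
    · exact Matrix.conjTranspose_zero
  · beta_reduce
    split_ifs
    · exact Matrix.one_mul 1
    · exact Matrix.mul_zero 0
  · rw [Finset.sum_ite_eq, if_pos (Finset.mem_univ _)]
  · rw [Finset.sum_ite_eq', if_pos (Finset.mem_univ _)]
  · by_cases h1 : g = h
    · by_cases h2 : g' = h'
      · subst h1 h2
        exact absurd ⟨Iff.rfl, Iff.rfl⟩ hne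
      · simp only [if_neg h2, mul_zero]
    · simp only [if_neg h1, zero_mul]

/-- Quantum isomorphic gadgets yield quantum isomorphic bundles. -/
theorem quantum_bundle {V U : Type} [Fintype V] [Fintype U] [DecidableEq V] {d : ℕ}
    {X : Bool → SimpleGraph U} (h : ∀ c c', QuantumIso d (X c) (X c')) (b b' : V × V → Bool) :
    QuantumIso d (bundle X b) (bundle X b') := by
  choose P h1 h2 h3 h4 h5 using h
  let p : Hub V ⊕ ((V × V) × U) → Hub V ⊕ ((V × V) × U) → Matrix (Fin d) (Fin d) ℂ :=
    fun g h => match g, h with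
      | Sum.inl x, Sum.inl y => if x = y then 1 else 0
      | Sum.inl _, Sum.inr _ => 0
      | Sum.inr _, Sum.inl _ => 0
      | Sum.inr x, Sum.inr y => if x.1 = y.1 then P (b x.1) (b' x.1) x.2 y.2 else 0
  have pll : ∀ x y : Hub V, p (Sum.inl x) (Sum.inl y) = if x = y then 1 else 0 := fun _ _ => rfl
  have plr : ∀ (x : Hub V) (y : (V × V) × U), p (Sum.inl x) (Sum.inr y) = 0 := fun _ _ => rfl
  have prl : ∀ (x : Hub V) (y : (V × V) × U), p (Sum.inr y) (Sum.inl x) = 0 := fun _ _ => rfl
  have prr : ∀ (x y : (V × V) × U), p (Sum.inr x) (Sum.inr y) =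
      if x.1 = y.1 then P (b x.1) (b' x.1) x.2 y.2 else 0 := fun _ _ => rfl
  refine ⟨p, ?_, ?_, ?_, ?_, ?_⟩
  · rintro (x | x) (y | y)
    · rw [pll]
      split_ifs
      · exact Matrix.conjTranspose_one
      · exact Matrix.conjTranspose_zero
    · exact Matrix.conjTranspose_zero
    · exact Matrix.conjTranspose_zero
    · rw [prr]
      split_ifs
      · exact h1 _ _ _ _
      · exact Matrix.conjTranspose_zero
  · rintro (x | x) (y | y)
    · rw [pll]
      split_ifs
      · exact Matrix.one_mul 1
      · exact Matrix.mul_zero 0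
    · exact Matrix.mul_zero 0
    · exact Matrix.mul_zero 0
    · rw [prr]
      split_ifs
      · exact h2 _ _ _ _
      · exact Matrix.mul_zero 0
  · rintro (x | x)
    · rw [Fintype.sum_sum_type]
      simp only [pll, plr, Finset.sum_const_zero, add_zero]
      rw [Finset.sum_ite_eq, if_pos (Finset.mem_univ _)]
    · rw [Fintype.sum_sum_type]
      simp only [prl, prr, Finset.sum_const_zero, zero_add]
      rw [Fintype.sum_prod_type, Finset.sum_eq_single x.1]
      · simp only [if_true]
        exact h3 _ _ _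
      · intro i _ hi
        refine Finset.sum_eq_zero fun u _ => if_neg ?_
        exact Ne.symm hi
      · intro h
        exact absurd (Finset.mem_univ _) h
  · rintro (y | y)
    · rw [Fintype.sum_sum_type]
      simp only [pll, prl, Finset.sum_const_zero, add_zero]
      rw [Finset.sum_ite_eq', if_pos (Finset.mem_univ _)]
    · rw [Fintype.sum_sum_type]
      simp only [plr, prr, Finset.sum_const_zero, zero_add]
      rw [Fintype.sum_prod_type, Finset.sum_eq_single y.1]
      · simp only [if_true]
        exact h4 _ _ _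
      · intro i _ hi
        refine Finset.sum_eq_zero fun u _ => if_neg ?_
        exact hi
      · intro h
        exact absurd (Finset.mem_univ _) h
  · rintro (x | ⟨i, u⟩) (x' | ⟨i', u'⟩) (y | ⟨j, v⟩) (y' | ⟨j', v'⟩) hne
    all_goals try (simp only [plr, prl, zero_mul, mul_zero])
    · rw [pll, pll]
      by_cases e1 : x = y
      · by_cases e2 : x' = y'
        · subst e1 e2
          exact absurd ⟨Iff.rfl, Iff.rfl⟩ hne
        · rw [if_neg e2, mul_zero]
      · rw [if_neg e1, zero_mul]
    · rw [pll, prr]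
      by_cases e1 : x = y
      · by_cases e2 : i' = j'
        · subst e1 e2
          exact absurd ⟨by simp, Iff.rfl⟩ hne
        · simp only [if_neg e2, mul_zero]
      · rw [if_neg e1, zero_mul]
    · rw [pll, prr]
      by_cases e1 : x' = y'
      · by_cases e2 : i = j
        · subst e1 e2
          exact absurd ⟨by simp, Iff.rfl⟩ hne
        · simp only [if_neg e2, zero_mul]
      · rw [if_neg e1, mul_zero]
    · rw [prr, prr]
      simp only
      by_cases e1 : i = j
      · by_cases e2 : i' = j'
        · subst e1 e2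
          rw [if_pos rfl, if_pos rfl]
          by_cases e3 : i = i'
          · subst e3
            refine h5 _ _ _ _ _ _ fun h0 => hne ?_
            simp only [adj_rr, Sum.inr.injEq, Prod.mk.injEq, true_and]
            exact h0
          · refine absurd ?_ hne
            simp only [adj_rr, Sum.inr.injEq, Prod.mk.injEq, e3, false_and, and_self]
        · rw [if_neg e2, mul_zero]
      · rw [if_neg e1, zero_mul]

end general

/-! ### The magic square -/

/-- The two graphs of the magic square. -/
def msGraph (c : Bool) : SimpleGraph (Fin 6 × Fin 4) := MS.graph (if c then MS.rhs else fun _ => false)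

theorem ms_quantum (c c' : Bool) : QuantumIso 4 (msGraph c) (msGraph c') := by
  have key : QuantumIso 4 (msGraph true) (msGraph false) :=
    ⟨pm, pm_star, pm_sq, pm_row, pm_col, fun g g' h h' hne => pm_orth g g' h h' hne⟩
  cases c <;> cases c'
  · exact QuantumIso.refl _
  · exact key.symm
  · exact key
  · exact QuantumIso.refl _

theorem ms_not_iso : IsEmpty (msGraph false ≃g msGraph true) :=
  ⟨fun φ => Pool.Agent.Results.MP_3b70de_al.NoUnitalEmbedding.not_iso ⟨φ.symm⟩⟩

/-- The numbered graphs of the magic square. -/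
def MX (_ : ℕ) (c : Bool) : SimpleGraph (Fin (6 * 4)) := (msGraph c).comap finProdFinEquiv.symm

/-- The numbering is an isomorphism. -/
def MXiso (n : ℕ) (c : Bool) : MX n c ≃g msGraph c := SimpleGraph.Iso.comap finProdFinEquiv.symm _

theorem ms_degree (c : Bool) (u : Fin 6 × Fin 4) : ((msGraph c).neighborSet u).ncard ≤ 9 := by
  classical
  have key : ∀ (c : Bool) (u : Fin 6 × Fin 4), (Finset.univ.filter fun v =>
      (MS.graph (if c then MS.rhs else fun _ => false)).Adj u v).card ≤ 9 := by
    decide +kernel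
  have h1 : (msGraph c).neighborSet u = ((Finset.univ.filter fun v =>
      (MS.graph (if c then MS.rhs else fun _ => false)).Adj u v : Finset (Fin 6 × Fin 4)) :
      Set (Fin 6 × Fin 4)) := by
    ext v
    simp [msGraph]
  rw [h1, Set.ncard_coe_finset]
  exact key c u

theorem MX_degree (n : ℕ) (c : Bool) (u : Fin (6 * 4)) : ((MX n c).neighborSet u).ncard ≤ 9 := by
  rw [← iso_ncard (MXiso n c) u]
  exact ms_degree _ _

theorem MX_not_iso (n : ℕ) : IsEmpty (MX n false ≃g MX n true) :=
  ⟨fun φ => ms_not_iso.false (((MXiso n false).symm.trans φ).trans (MXiso n true))⟩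

/-- The adjacency test. -/
noncomputable def adjMX (_ : ℕ) (c : Bool) (s t : ℕ) : Bool :=
  ent (bif c then adjMatrix (MX 0 true) else adjMatrix (MX 0 false)) s t

theorem adjMX_iff (n : ℕ) (c : Bool) (s t : Fin (6 * 4)) :
    adjMX n c s t = true ↔ (MX n c).Adj s t := by
  unfold adjMX
  cases c
  · exact ent_adjMatrix _ s t
  · exact ent_adjMatrix _ s t

end Pool.Agent.H677.GW

namespace Pool.Agent.NPC.GW677

open Pool.Agent.H677.GW Pool.Agent.NPC.UB129 Pool.Agent.NPC.R671

theorem poly_adjMX : Poly (fun p : Mat × Bool × ℕ × ℕ =>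
    adjMX p.1.length p.2.1 p.2.2.1 p.2.2.2) := by
  unfold adjMX
  have h1 : Poly (fun p : Mat × Bool × ℕ × ℕ =>
      (bif p.2.1 then adjMatrix (MX 0 true) else adjMatrix (MX 0 false))) :=
    Poly.cond (Poly.fst (Poly.snd Poly.id)) (Poly.const _) (Poly.const _)
  exact poly_ent.comp (f := fun p : Mat × Bool × ℕ × ℕ =>
    ((bif p.2.1 then adjMatrix (MX 0 true) else adjMatrix (MX 0 false)), p.2.2.1, p.2.2.2))
    (Poly.pair h1 (Poly.snd (Poly.snd Poly.id)))

end Pool.Agent.NPC.GW677
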